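import Pool.Agent.H21.L.R_pool_sql_team_seeded_2aa45f1a.Q5.AP.Par

/-!
# Oscillation in blocks
-/

set_option autoImplicit false

open MeasureTheory Filter Topology Set Complex

namespace Pool.Agent.Q5.AP

variable {f : ℝ → ℂ} {a : ℝ → ℂ} {V : ℝ} {g : ℝ → ℝ}

/-- the mean of the absolute value is at least the coefficient -/
theorem Par.abs_ge (h : Par f a V) (t : ℝ) {ε : ℝ} (hε : 0 < ε) :
    ∀ᶠ T : ℝ in atTop, ‖a t‖ - ε ≤ MR (fun u => ‖f u‖) T := by
  have h1 := (h.co t).norm
  filter_upwards [h1.eventually (lt_mem_nhds (show ‖a t‖ - ε < ‖a t‖ by linarith)),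
    eventually_gt_atTop 0] with T h2 hT
  refine h2.le.trans ?_
  unfold M MR
  rw [norm_div, Complex.norm_real, Real.norm_of_nonneg hT.le]
  refine div_le_div_of_nonneg_right ?_ hT.le
  refine (intervalIntegral.norm_integral_le_integral_norm hT.le).trans (le_of_eq ?_)
  refine intervalIntegral.integral_congr fun u _ => ?_
  rw [norm_mul, Complex.norm_exp]
  simp

/-- the bound for the integrals of a trigonometric polynomial -/
noncomputable def CZ (Z : Finset ℝ) (a : ℝ → ℂ) : ℝ := ∑ τ ∈ Z, ‖a τ‖ * (2 / |τ|)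

theorem tp_int_le (Z : Finset ℝ) {a : ℝ → ℂ} (h0 : a 0 = 0) (x y : ℝ) :
    ‖∫ u in x..y, Tp Z a u‖ ≤ CZ Z a := by
  unfold Tp CZ
  rw [intervalIntegral.integral_finsetSum (fun τ _ => Continuous.intervalIntegrable (by fun_prop) _ _)]
  refine (norm_sum_le _ _).trans (Finset.sum_le_sum fun τ _ => ?_)
  by_cases hτ : τ = 0
  · rw [hτ, h0]
    simp
  · rw [intervalIntegral.integral_const_mul, norm_mul]
    refine mul_le_mul_of_nonneg_left ?_ (norm_nonneg _)
    have hc : (τ : ℂ) * I ≠ 0 := mul_ne_zero (by exact_mod_cast hτ) I_ne_zero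
    rw [integral_exp_mul_complex hc, norm_div, norm_mul, Complex.norm_I, mul_one, Complex.norm_real,
      Real.norm_eq_abs]
    have h2 : ∀ v : ℝ, ‖exp ((τ : ℂ) * I * v)‖ = 1 := by
      intro v
      rw [Complex.norm_exp]
      simp
    have h3 := norm_sub_le (exp ((τ : ℂ) * I * y)) (exp ((τ : ℂ) * I * x))
    rw [h2, h2] at h3
    exact div_le_div_of_nonneg_right (by linarith) (abs_nonneg τ)

/-- `g` takes values `> c` and values `< -c` in `(x, y]` -/
def Osc (g : ℝ → ℝ) (c x y : ℝ) : Prop :=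
  (∃ u : ℝ, x < u ∧ u ≤ y ∧ c < g u) ∧ ∃ v : ℝ, x < v ∧ v ≤ y ∧ g v < -c

/-- intervals without oscillation -/
theorem bad_le {c x y : ℝ} (hc : 0 ≤ c) (hxy : x ≤ y) (hg : IntervalIntegrable g volume x y)
    (hb : ¬ Osc g c x y) : ∫ u in x..y, |g u| ≤ |∫ u in x..y, g u| + 2 * c * (y - x) := by
  have key : ∀ {h : ℝ → ℝ}, IntervalIntegrable h volume x y → (∀ u, x < u → u ≤ y → h u ≤ c) →
      ∫ u in x..y, |h u| ≤ |∫ u in x..y, h u| + 2 * c * (y - x) := by
    intro h hh hle
    have h1 : ∫ u in x..y, |h u| ≤ ∫ u in x..y, (2 * c - h u) := by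
      rw [intervalIntegral.integral_of_le hxy, intervalIntegral.integral_of_le hxy]
      have i1 := (intervalIntegrable_iff_integrableOn_Ioc_of_le hxy).1 hh.abs
      have i2 := (intervalIntegrable_iff_integrableOn_Ioc_of_le hxy).1
        ((intervalIntegrable_const (c := 2 * c)).sub hh)
      refine setIntegral_mono_on i1 i2 measurableSet_Ioc fun u hu => ?_
      have h2 := hle u hu.1 hu.2
      rw [abs_le]
      constructor <;> linarith
    rw [intervalIntegral.integral_sub intervalIntegrable_const hh, intervalIntegral.integral_const,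
      smul_eq_mul] at h1
    have h3 := neg_abs_le (∫ u in x..y, h u)
    linarith
  by_cases h1 : ∃ u : ℝ, x < u ∧ u ≤ y ∧ c < g u
  · have h2 : ¬ ∃ v : ℝ, x < v ∧ v ≤ y ∧ g v < -c := fun h => hb ⟨h1, h⟩
    push Not at h2
    have h3 := key hg.neg fun u hu1 hu2 => by
      have := h2 u hu1 hu2
      show -g u ≤ c
      linarith
    simp only [Pi.neg_apply, abs_neg, intervalIntegral.integral_neg] at h3
    exact h3
  · push Not at h1
    exact key hg h1

open Classical in
/-- the number of the blocks of length `L` with oscillation -/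
noncomputable def cnt (g : ℝ → ℝ) (c L : ℝ) (n : ℕ) : ℕ :=
  ((Finset.range n).filter fun k : ℕ => Osc g c (k * L) ((k + 1) * L)).card

theorem sum_aux (n : ℕ) (C s r : ℝ) (I2 I3 I4 : ℕ → ℝ) :
    ∑ k ∈ Finset.range n, (C + I2 k + (s * I3 k + r * I4 k) / 2) =
      n * C + ∑ k ∈ Finset.range n, I2 k + (s * ∑ k ∈ Finset.range n, I3 k +
        r * ∑ k ∈ Finset.range n, I4 k) / 2 := by
  rw [Finset.sum_add_distrib, Finset.sum_add_distrib, Finset.sum_const, ← Finset.sum_div,
    Finset.sum_add_distrib, ← Finset.mul_sum, ← Finset.mul_sum, Finset.card_range, nsmul_eq_mul]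

/-- **A positive proportion of the blocks has oscillation.** -/
theorem blocks (h : Par (fun u => (g u : ℂ)) a V) (h0 : a 0 = 0) (hV : 0 < V) {t c : ℝ} (hc : 0 ≤ c)
    (hct : 2 * c < ‖a t‖) {ε : ℝ} (hε : 0 < ε) :
    ∃ L₀ : ℝ, 0 < L₀ ∧ ∀ L : ℝ, L₀ ≤ L →
      ∀ᶠ n : ℕ in atTop, ((‖a t‖ - 2 * c) ^ 2 / V - ε) * n ≤ cnt g c L n := by
  classical
  set D : ℝ := ‖a t‖ - 2 * c with hD
  have hD0 : 0 < D := by linarith
  set s : ℝ := D / V with hs
  have hs0 : 0 < s := div_pos hD0 hV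
  -- the small quantity
  set e : ℝ := ε / (8 * s + 8 * s ^ 2) with he
  have he0 : 0 < e := by positivity
  have he1 : 8 * s * e ≤ ε := by
    rw [he, mul_div_assoc', div_le_iff₀ (by positivity)]
    nlinarith [mul_pos hs0 hε, sq_nonneg s, mul_nonneg (sq_nonneg s) hε.le]
  have he2 : 8 * s ^ 2 * e ≤ ε := by
    rw [he, mul_div_assoc', div_le_iff₀ (by positivity)]
    nlinarith [mul_pos hs0 hε, sq_nonneg s, mul_nonneg (sq_nonneg s) hε.le]
  -- the polynomial
  set r : ℝ := 1 / e with hr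
  have hr0 : 0 < r := by positivity
  obtain ⟨Z, hZ⟩ := (h.pa.eventually (Metric.ball_mem_nhds V (show 0 < e ^ 2 by positivity))).exists
  have hZ2 : V - ∑ t ∈ Z, ‖a t‖ ^ 2 < e ^ 2 := by
    have h3 : dist (∑ t ∈ Z, ‖a t‖ ^ 2) V < e ^ 2 := hZ
    rw [Real.dist_eq, abs_lt] at h3
    linarith [h3.1]
  have hCZ : 0 ≤ CZ Z a := Finset.sum_nonneg fun τ _ => by positivity
  refine ⟨(CZ Z a + 1) / e, by positivity, fun L hL => ?_⟩
  have hL0 : 0 < L := lt_of_lt_of_le (by positivity) hL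
  have hLC : CZ Z a ≤ e * L := by
    have h1 := mul_le_mul_of_nonneg_left hL he0.le
    have : e * ((CZ Z a + 1) / e) = CZ Z a + 1 := by field_simp
    linarith
  have hT : Tendsto (fun n : ℕ => (n : ℝ) * L) atTop atTop :=
    tendsto_natCast_atTop_atTop.atTop_mul_const hL0
  have t1 := hT.eventually (h.abs_ge t he0)
  have t2 := hT.eventually ((h.err Z).eventually (gt_mem_nhds hZ2))
  have t3 := hT.eventually (h.ms.eventually (gt_mem_nhds (show V < V + e by linarith)))
  filter_upwards [t1, t2, t3, eventually_gt_atTop 0] with n k1 k2 k3 hn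
  have hn0 : (0 : ℝ) < n := by exact_mod_cast hn
  set T : ℝ := n * L with hTd
  have hT0 : 0 < T := mul_pos hn0 hL0
  -- integrability
  have ig : ∀ x y : ℝ, 0 ≤ x → x ≤ y → y ≤ T → IntervalIntegrable g volume x y := by
    intro x y hx hxy hyT
    have h1 := h.loc.int hT0
    rw [intervalIntegrable_iff_integrableOn_Ioc_of_le hT0.le] at h1
    rw [intervalIntegrable_iff_integrableOn_Ioc_of_le hxy]
    have h2 : IntegrableOn g (Ioc 0 T) := by
      have h3 : Integrable (fun u => (g u : ℂ).re) (volume.restrict (Ioc 0 T)) := h1.re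
      exact h3
    exact h2.mono_set (Ioc_subset_Ioc hx hyT)
  have igs : ∀ x y : ℝ, 0 ≤ x → x ≤ y → y ≤ T → IntervalIntegrable (fun u => g u ^ 2) volume x y := by
    intro x y hx hxy hyT
    have h1 := h.loc.sq hT0
    rw [intervalIntegrable_iff_integrableOn_Ioc_of_le hT0.le] at h1
    rw [intervalIntegrable_iff_integrableOn_Ioc_of_le hxy]
    have h2 : IntegrableOn (fun u => g u ^ 2) (Ioc 0 T) := by
      refine h1.congr_fun (fun u _ => ?_) measurableSet_Ioc
      simp only [Complex.norm_real, Real.norm_eq_abs, sq_abs]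
    exact h2.mono_set (Ioc_subset_Ioc hx hyT)
  have idf : ∀ x y : ℝ, 0 ≤ x → x ≤ y → y ≤ T →
      IntervalIntegrable (fun u => ‖(g u : ℂ) - Tp Z a u‖) volume x y := by
    intro x y hx hxy hyT
    have h1 := ((h.loc.sub (tp_l2 Z a)).int hT0).norm
    rw [intervalIntegrable_iff_integrableOn_Ioc_of_le hT0.le] at h1
    rw [intervalIntegrable_iff_integrableOn_Ioc_of_le hxy]
    exact h1.mono_set (Ioc_subset_Ioc hx hyT)
  have hle : ∀ k : ℕ, (k : ℝ) * L ≤ (k + 1) * L := fun k => by nlinarith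
  have hk0 : ∀ k : ℕ, 0 ≤ (k : ℝ) * L := fun k => by positivity
  have hkT : ∀ k : ℕ, k < n → ((k : ℝ) + 1) * L ≤ T := fun k hk => by
    have : ((k : ℝ) + 1) ≤ n := by exact_mod_cast hk
    exact mul_le_mul_of_nonneg_right this hL0.le
  -- splitting into the blocks
  have split : ∀ φ : ℝ → ℝ, (∀ x y : ℝ, 0 ≤ x → x ≤ y → y ≤ T → IntervalIntegrable φ volume x y) →
      ∫ u in (0 : ℝ)..T, φ u = ∑ k ∈ Finset.range n, ∫ u in ((k : ℝ) * L)..((k + 1) * L), φ u := by
    intro φ hφ
    have h1 := intervalIntegral.sum_integral_adjacent_intervals (f := φ) (μ := volume)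
      (a := fun k : ℕ => (k : ℝ) * L) (n := n) fun k hk => by
        have := hφ _ _ (hk0 k) (hle k) (hkT k hk)
        push_cast
        exact this
    rw [Nat.cast_zero, zero_mul] at h1
    rw [← h1]
    refine Finset.sum_congr rfl fun k _ => ?_
    push_cast
    rfl
  set G : Finset ℕ := (Finset.range n).filter fun k : ℕ => Osc g c (k * L) ((k + 1) * L) with hG
  -- one block
  have one : ∀ k ∈ Finset.range n, ∫ u in ((k : ℝ) * L)..((k + 1) * L), |g u| ≤
      (CZ Z a + 2 * c * L) + (∫ u in ((k : ℝ) * L)..((k + 1) * L), ‖(g u : ℂ) - Tp Z a u‖) +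
      (s * (∫ u in ((k : ℝ) * L)..((k + 1) * L), g u ^ 2) +
        s⁻¹ * (if Osc g c (k * L) ((k + 1) * L) then L else 0)) / 2 := by
    intro k hk
    have hk' : k < n := Finset.mem_range.1 hk
    have i1 := ig _ _ (hk0 k) (hle k) (hkT k hk')
    have i2 := igs _ _ (hk0 k) (hle k) (hkT k hk')
    have i3 := idf _ _ (hk0 k) (hle k) (hkT k hk')
    have n3 : 0 ≤ ∫ u in ((k : ℝ) * L)..((k + 1) * L), ‖(g u : ℂ) - Tp Z a u‖ :=
      intervalIntegral.integral_nonneg (hle k) fun u _ => norm_nonneg _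
    have n2 : 0 ≤ ∫ u in ((k : ℝ) * L)..((k + 1) * L), g u ^ 2 :=
      intervalIntegral.integral_nonneg (hle k) fun u _ => sq_nonneg _
    by_cases ho : Osc g c (k * L) ((k + 1) * L)
    · rw [if_pos ho]
      have h1 : ∫ u in ((k : ℝ) * L)..((k + 1) * L), |g u| ≤
          ∫ u in ((k : ℝ) * L)..((k + 1) * L), (s * g u ^ 2 + s⁻¹) / 2 := by
        refine intervalIntegral.integral_mono_on (hle k) i1.abs
          (((i2.const_mul s).add intervalIntegrable_const).div_const 2) fun u _ => ?_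
        have h2 : 0 ≤ s⁻¹ * (s * |g u| - 1) ^ 2 := by positivity
        have h3 : s⁻¹ * (s * |g u| - 1) ^ 2 = s * |g u| ^ 2 + s⁻¹ - 2 * |g u| := by
          field_simp
          ring
        rw [sq_abs] at h3
        linarith
      rw [intervalIntegral.integral_div, intervalIntegral.integral_add (i2.const_mul s)
        intervalIntegrable_const, intervalIntegral.integral_const_mul,
        intervalIntegral.integral_const, smul_eq_mul] at h1
      have h4 : ((k : ℝ) + 1) * L - k * L = L := by ring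
      rw [h4] at h1
      have h5 : 0 ≤ CZ Z a + 2 * c * L := by positivity
      nlinarith
    · rw [if_neg ho, mul_zero, add_zero]
      have h1 := bad_le hc (hle k) i1 ho
      have h2 : |∫ u in ((k : ℝ) * L)..((k + 1) * L), g u| ≤ CZ Z a +
          ∫ u in ((k : ℝ) * L)..((k + 1) * L), ‖(g u : ℂ) - Tp Z a u‖ := by
        have ic : IntervalIntegrable (fun u => (g u : ℂ)) volume (k * L) ((k + 1) * L) := by
          rw [intervalIntegrable_iff_integrableOn_Ioc_of_le (hle k)] at i1 ⊢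
          exact i1.ofReal
        have it : IntervalIntegrable (Tp Z a) volume (k * L) ((k + 1) * L) :=
          (tp_cont Z a).intervalIntegrable _ _
        have h3 : ((∫ u in ((k : ℝ) * L)..((k + 1) * L), g u : ℝ) : ℂ) =
            (∫ u in ((k : ℝ) * L)..((k + 1) * L), Tp Z a u) +
              ∫ u in ((k : ℝ) * L)..((k + 1) * L), ((g u : ℂ) - Tp Z a u) := by
          rw [intervalIntegral.integral_sub ic it, ← intervalIntegral.integral_ofReal]
          ring
        have h4 : |∫ u in ((k : ℝ) * L)..((k + 1) * L), g u| =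
            ‖((∫ u in ((k : ℝ) * L)..((k + 1) * L), g u : ℝ) : ℂ)‖ := by
          rw [Complex.norm_real, Real.norm_eq_abs]
        rw [h4, h3]
        refine (norm_add_le _ _).trans (add_le_add (tp_int_le Z h0 _ _) ?_)
        exact intervalIntegral.norm_integral_le_integral_norm (hle k)
      have h4 : ((k : ℝ) + 1) * L - k * L = L := by ring
      rw [h4] at h1
      have h5 : 0 ≤ s * (∫ u in ((k : ℝ) * L)..((k + 1) * L), g u ^ 2) / 2 := by positivity
      linarith
  -- the sum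
  have tot := Finset.sum_le_sum one
  rw [sum_aux n (CZ Z a + 2 * c * L) s s⁻¹, ← split _ (fun x y h1 h2 h3 => (ig x y h1 h2 h3).abs),
    ← split _ idf, ← split _ igs, ← Finset.sum_filter, Finset.sum_const, nsmul_eq_mul] at tot
  have hcnt : ((Finset.range n).filter fun k : ℕ => Osc g c (k * L) ((k + 1) * L)).card = cnt g c L n := by
    unfold cnt
    congr 1
  rw [hcnt] at tot
  -- the three means
  have m1 : (‖a t‖ - e) * T ≤ ∫ u in (0 : ℝ)..T, |g u| := by
    have h1 : ‖a t‖ - e ≤ (∫ u in (0 : ℝ)..T, ‖(g u : ℂ)‖) / T := k1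
    rw [le_div_iff₀ hT0] at h1
    simpa only [Complex.norm_real, Real.norm_eq_abs] using h1
  have m3 : ∫ u in (0 : ℝ)..T, g u ^ 2 ≤ (V + e) * T := by
    have h1 : (∫ u in (0 : ℝ)..T, ‖(g u : ℂ)‖ ^ 2) / T < V + e := k3
    rw [div_lt_iff₀ hT0] at h1
    simp only [Complex.norm_real, Real.norm_eq_abs, sq_abs] at h1
    exact h1.le
  have m2 : ∫ u in (0 : ℝ)..T, ‖(g u : ℂ) - Tp Z a u‖ ≤ e * T := by
    have h1 : (∫ u in (0 : ℝ)..T, ‖(g u : ℂ) - Tp Z a u‖ ^ 2) / T < e ^ 2 := k2
    rw [div_lt_iff₀ hT0] at h1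
    have i4 := (h.loc.sub (tp_l2 Z a)).sq hT0
    have h2 : ∫ u in (0 : ℝ)..T, ‖(g u : ℂ) - Tp Z a u‖ ≤
        ∫ u in (0 : ℝ)..T, (r * ‖(g u : ℂ) - Tp Z a u‖ ^ 2 + r⁻¹) / 2 := by
      refine intervalIntegral.integral_mono_on hT0.le (idf _ _ le_rfl hT0.le le_rfl)
        (((i4.const_mul r).add intervalIntegrable_const).div_const 2) fun u _ => ?_
      have h2 : 0 ≤ r⁻¹ * (r * ‖(g u : ℂ) - Tp Z a u‖ - 1) ^ 2 := by positivity
      have h3 : r⁻¹ * (r * ‖(g u : ℂ) - Tp Z a u‖ - 1) ^ 2 =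
          r * ‖(g u : ℂ) - Tp Z a u‖ ^ 2 + r⁻¹ - 2 * ‖(g u : ℂ) - Tp Z a u‖ := by
        field_simp
        ring
      linarith
    rw [intervalIntegral.integral_div, intervalIntegral.integral_add (i4.const_mul r)
      intervalIntegrable_const, intervalIntegral.integral_const_mul,
      intervalIntegral.integral_const, smul_eq_mul, sub_zero] at h2
    have h3 : r * (∫ u in (0 : ℝ)..T, ‖(g u : ℂ) - Tp Z a u‖ ^ 2) ≤ r * (e ^ 2 * T) :=
      mul_le_mul_of_nonneg_left h1.le hr0.le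
    have h4 : r * (e ^ 2 * T) = e * T := by
      rw [hr]
      field_simp
    have h5 : r⁻¹ = e := by rw [hr, one_div, inv_inv]
    rw [h5] at h2
    rw [h4] at h3
    linarith
  -- conclusion
  have b1 : (n : ℝ) * (CZ Z a + 2 * c * L) ≤ e * T + 2 * c * T := by
    rw [hTd]
    nlinarith
  have b2 : (‖a t‖ - e) * T ≤ e * T + 2 * c * T + e * T +
      (s * ((V + e) * T) + s⁻¹ * ((cnt g c L n : ℝ) * L)) / 2 := by
    have h6 : s * (∫ u in (0 : ℝ)..T, g u ^ 2) ≤ s * ((V + e) * T) :=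
      mul_le_mul_of_nonneg_left m3 hs0.le
    linarith
  have b3 : (2 * s * (D - 3 * e) - s ^ 2 * (V + e)) * T ≤ (cnt g c L n : ℝ) * L := by
    have h6 : 2 * (D - 3 * e) * T - s * ((V + e) * T) ≤ s⁻¹ * ((cnt g c L n : ℝ) * L) := by
      rw [hD]
      linarith
    have h7 := mul_le_mul_of_nonneg_left h6 hs0.le
    have h8 : s * (s⁻¹ * ((cnt g c L n : ℝ) * L)) = (cnt g c L n : ℝ) * L := by
      field_simp
    rw [h8] at h7
    linarith
  have b4 : D ^ 2 / V - ε ≤ 2 * s * (D - 3 * e) - s ^ 2 * (V + e) := by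
    have h6 : s * V = D := by rw [hs]; field_simp
    have h7 : D ^ 2 / V = s * D := by rw [hs]; ring
    have h8 : s ^ 2 * V = s * D := by rw [sq, mul_assoc, h6]
    rw [h7]
    nlinarith
  have b5 := (mul_le_mul_of_nonneg_right b4 hT0.le).trans b3
  have b6 : (D ^ 2 / V - ε) * n * L ≤ (cnt g c L n : ℝ) * L := by
    calc (D ^ 2 / V - ε) * n * L = (D ^ 2 / V - ε) * T := by rw [hTd]; ring
      _ ≤ _ := b5
  exact le_of_mul_le_mul_right b6 hL0

end Pool.Agent.Q5.AP
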