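import Pool.Agent.H21.L.R_pool_sql_team_seeded_2aa45f1a.Q5.AP.Blocks
import Pool.Agent.H21.L.R_pool_sql_team_seeded_2aa45f1a.Q5.OM.Pack

/-!
# From the means over `[e, Y]` with respect to `dy/y` to the means over `(0, T]`
-/

set_option autoImplicit false

open MeasureTheory Filter Topology Set Complex
open Pool.Agent.TH270.MS (BM)
open Pool.Agent.Q5.BP (MSq FB mean_from_one mean_from_one_real)
open Pool.Agent.Q5.OM (aesm mn mn_sq fb_cov)

namespace Pool.Agent.Q5.AP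

/-- the function `u ↦ W (e^u)` for `u > 1`, and `0` for `u ≤ 1` -/
noncomputable def cut (W : ℝ → ℝ) : ℝ → ℝ := indicator (Ioi 1) fun u => W (Real.exp u)

variable {W δ : ℝ → ℝ} {a : ℝ → ℂ} {V : ℝ}

theorem cut_of (W : ℝ → ℝ) {u : ℝ} (hu : 1 < u) : cut W u = W (Real.exp u) :=
  indicator_of_mem (show u ∈ Ioi (1 : ℝ) from hu) _

theorem cut_le (W : ℝ → ℝ) {u : ℝ} (hu : u ≤ 1) : cut W u = 0 :=
  indicator_of_notMem (by simpa using hu) _

theorem cut_meas (h : BM W) : AEStronglyMeasurable (cut W) volume :=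
  (aestronglyMeasurable_indicator_iff measurableSet_Ioi).2 (aesm h)

theorem cut_l2 (h : BM W) : L2 fun u => (cut W u : ℂ) := by
  intro T hT
  obtain ⟨M, hM⟩ := h.2 (Real.exp T)
  refine MemLp.of_bound (C := |M|)
    (Complex.continuous_ofReal.comp_aestronglyMeasurable (cut_meas h).restrict) ?_
  filter_upwards [ae_restrict_mem measurableSet_Ioc] with u hu
  by_cases h1 : 1 < u
  · rw [cut_of W h1, Complex.norm_real, Real.norm_eq_abs]
    exact (hM _ (Real.exp_le_exp.2 h1.le) (Real.exp_le_exp.2 hu.2)).trans (le_abs_self M)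
  · rw [cut_le W (not_lt.1 h1)]
    simp

theorem par_of (hW : BM fun y => Real.log y * δ y) (hms : Tendsto (MSq δ) atTop (𝓝 V))
    (hfb : ∀ t : ℝ, Tendsto (FB δ t) atTop (𝓝 (a t))) (hpa : HasSum (fun t => ‖a t‖ ^ 2) V) :
    Par (fun u => (cut (fun y => Real.log y * δ y) u : ℂ)) a V where
  loc := cut_l2 hW
  ms := by
    have hl := cut_l2 hW
    have h1 := mn_sq hms
    unfold MR
    rw [mean_from_one_real (fun T hT => hl.sq hT)]
    refine h1.congr' ?_
    filter_upwards [eventually_ge_atTop 1] with T hT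
    unfold mn
    congr 1
    refine intervalIntegral.integral_congr_ae (Eventually.of_forall fun u hu => ?_)
    rw [uIoc_of_le hT] at hu
    rw [cut_of _ hu.1, Complex.norm_real, Real.norm_eq_abs, sq_abs]
  co t := by
    have hl := cut_l2 hW
    have h1 := fb_cov (hfb t)
    unfold M
    rw [mean_from_one (fun T hT => (hl.exp t).int hT)]
    refine h1.congr' ?_
    filter_upwards [eventually_ge_atTop 1] with T hT
    congr 1
    refine intervalIntegral.integral_congr_ae (Eventually.of_forall fun u hu => ?_)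
    rw [uIoc_of_le hT] at hu
    rw [cut_of _ hu.1]
  pa := hpa

/-- the coefficients `-i m_t/t` -/
noncomputable def cm (m : ℝ → ℕ) (t : ℝ) : ℂ := -((m t : ℂ) * I / t)

theorem norm_cm (m : ℝ → ℕ) (t : ℝ) : ‖cm m t‖ = (m t : ℝ) / |t| := Pool.Agent.Q5.OM.norm_coef _ _

theorem norm_cm_sq (m : ℝ → ℕ) (t : ℝ) : ‖cm m t‖ ^ 2 = ((m t : ℝ) / t) ^ 2 := by
  rw [norm_cm, div_pow, sq_abs, div_pow]

theorem cm_zero (m : ℝ → ℕ) : cm m 0 = 0 := by
  unfold cm
  simp

theorem par_of_cm {m : ℝ → ℕ} (hW : BM fun y => Real.log y * δ y)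
    (hms : ∃ V : ℝ, HasSum (fun t : ℝ => ((m t : ℝ) / t) ^ 2) V ∧ Tendsto (MSq δ) atTop (𝓝 V))
    (hfb : ∀ t : ℝ, Tendsto (FB δ t) atTop (𝓝 (-((m t : ℂ) * I / t)))) :
    ∃ V : ℝ, HasSum (fun t : ℝ => ((m t : ℝ) / t) ^ 2) V ∧
      Par (fun u => (cut (fun y => Real.log y * δ y) u : ℂ)) (cm m) V := by
  obtain ⟨V, hV, hT⟩ := hms
  refine ⟨V, hV, par_of hW hT hfb ?_⟩
  simp only [norm_cm_sq]
  exact hV

/-- `W` takes values `> c` and values `< -c` in `(x, y]` -/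
def Swings (W : ℝ → ℝ) (c x y : ℝ) : Prop :=
  (∃ z : ℝ, x < z ∧ z ≤ y ∧ c < W z) ∧ ∃ z : ℝ, x < z ∧ z ≤ y ∧ W z < -c

open Classical in
/-- the number of the blocks `(e^(kL), e^((k+1)L)]`, `k < n`, with values `> c` and values `< -c` -/
noncomputable def swingCount (W : ℝ → ℝ) (c L : ℝ) (n : ℕ) : ℕ :=
  ((Finset.range n).filter fun k : ℕ =>
    Swings W c (Real.exp (k * L)) (Real.exp ((k + 1) * L))).card

theorem cnt_le {c : ℝ} (hc : 0 ≤ c) (W : ℝ → ℝ) (L : ℝ) (n : ℕ) :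
    cnt (cut W) c L n ≤ swingCount W c L n := by
  classical
  unfold cnt swingCount
  refine Finset.card_le_card fun k hk => ?_
  rw [Finset.mem_filter] at hk ⊢
  refine ⟨hk.1, ?_⟩
  obtain ⟨⟨u, hu1, hu2, hu3⟩, v, hv1, hv2, hv3⟩ := hk.2
  have h1 : 1 < u := by
    by_contra h
    rw [cut_le W (not_lt.1 h)] at hu3
    linarith
  have h2 : 1 < v := by
    by_contra h
    rw [cut_le W (not_lt.1 h)] at hv3
    linarith
  rw [cut_of W h1] at hu3
  rw [cut_of W h2] at hv3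
  exact ⟨⟨_, Real.exp_lt_exp.2 hu1, Real.exp_le_exp.2 hu2, hu3⟩,
    ⟨_, Real.exp_lt_exp.2 hv1, Real.exp_le_exp.2 hv2, hv3⟩⟩

/-- **A positive proportion of the blocks has oscillation.** -/
theorem blocks_of {m : ℝ → ℕ} (h : Par (fun u => (cut W u : ℂ)) (cm m) V) {t c : ℝ} (hc : 0 ≤ c)
    (hct : 2 * c < (m t : ℝ) / |t|) {ε : ℝ} (hε : 0 < ε) :
    ∃ L₀ : ℝ, 0 < L₀ ∧ ∀ L : ℝ, L₀ ≤ L → ∀ᶠ n : ℕ in atTop,
      (((m t : ℝ) / |t| - 2 * c) ^ 2 / V - ε) * n ≤ swingCount W c L n := by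
  have hV : 0 < V := by
    have h3 : ‖cm m t‖ ^ 2 ≤ V := le_hasSum h.pa t fun s _ => by positivity
    have h4 : 0 < ‖cm m t‖ := by
      rw [norm_cm]
      linarith
    have h5 : 0 < ‖cm m t‖ ^ 2 := by positivity
    linarith
  obtain ⟨L, hL, h1⟩ := blocks h (cm_zero m) hV hc (t := t) (by rwa [norm_cm]) hε
  refine ⟨L, hL, fun L' hL' => ?_⟩
  filter_upwards [h1 L' hL'] with n hn
  rw [norm_cm] at hn
  exact hn.trans (by exact_mod_cast cnt_le hc W L' n)

end Pool.Agent.Q5.AP
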