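import Pool.Agent.H21.L.R_pool_sql_team_seeded_2aa45f1a.Q5.AP.Levy
import Pool.Agent.H21.L.R_pool_sql_team_seeded_2aa45f1a.Q5.AP.ExpMean
import Pool.Agent.H21.L.R_pool_sql_team_seeded_2aa45f1a.Q5.AP.Bridge

/-!
# The limiting distribution of a function with a mean square and Parseval's formula
-/

set_option autoImplicit false

open MeasureTheory Filter Topology Set Complex
open Pool.Agent.TH270.MS (BM)
open Pool.Agent.Q5.OM (mn mn_cov Share)

namespace Pool.Agent.Q5.AP

variable {g : ℝ → ℝ} {a : ℝ → ℂ} {V : ℝ}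

theorem MR_congr {f f' : ℝ → ℝ} (h : f =ᵐ[volume] f') (T : ℝ) : MR f T = MR f' T := by
  unfold MR
  congr 1
  exact intervalIntegral.integral_congr_ae (h.mono fun u hu _ => hu)

theorem Par.congr_ae {f f' : ℝ → ℂ} (h : Par f a V) (hff : f =ᵐ[volume] f') : Par f' a V where
  loc T hT := (h.loc T hT).ae_eq (ae_restrict_of_ae hff)
  ms := by
    refine h.ms.congr fun T => MR_congr ?_ T
    filter_upwards [hff] with u hu
    rw [hu]
  co t := by
    refine (h.co t).congr fun T => ?_
    unfold M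
    congr 1
    refine intervalIntegral.integral_congr_ae (hff.mono fun u hu _ => ?_)
    rw [hu]
  pa := h.pa

theorem law_real (hg : Measurable g) {φ : ℝ → ℝ} (hφ : Measurable φ) {T : ℝ} (hT : 0 < T) :
    ∫ x, φ x ∂(law g T) = MR (fun u => φ (g u)) T := by
  rw [law_integral hg hφ.stronglyMeasurable hT]
  unfold MR
  rw [smul_eq_mul]
  ring

theorem charFun_law (hg : Measurable g) (ξ : ℝ) {T : ℝ} (hT : 0 < T) :
    charFun (law g T) ξ = M (fun u => exp (((ξ * g u : ℝ) : ℂ) * I)) T := by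
  have hφ : Continuous fun x : ℝ => exp ((ξ : ℂ) * x * I) := by fun_prop
  rw [charFun_apply_real, law_integral hg hφ.stronglyMeasurable hT]
  unfold M
  rw [Complex.real_smul]
  push_cast
  ring

theorem Par.smul_real (h : Par (fun u => (g u : ℂ)) a V) (ξ : ℝ) :
    Par (fun u => ((ξ * g u : ℝ) : ℂ)) (fun t => (ξ : ℂ) * a t) (ξ ^ 2 * V) := by
  have h1 := h.const_mul (ξ : ℂ)
  rw [Complex.norm_real, Real.norm_eq_abs, sq_abs] at h1
  simp only [Complex.ofReal_mul]
  exact h1

/-- **The limiting distribution exists.** -/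
theorem Par.law_exists (h : Par (fun u => (g u : ℂ)) a V) (hg : Measurable g) :
    ∃ ν : ProbabilityMeasure ℝ, Tendsto (lawP hg) atTop (𝓝 ν) := by
  have h1 : ∀ ξ : ℝ, ∃ z : ℂ, Tendsto (M fun u => exp (((ξ * g u : ℝ) : ℂ) * I)) atTop (𝓝 z) :=
    fun ξ => (h.smul_real ξ).exp_mean
  choose Φ hΦ using h1
  have hlim : ∀ ξ, Tendsto (fun T : ℝ => charFun (law g T) ξ) atTop (𝓝 (Φ ξ)) := by
    intro ξ
    refine (hΦ ξ).congr' ?_
    filter_upwards [eventually_gt_atTop 0] with T hT
    exact (charFun_law hg ξ hT).symm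
  have hnear : ∀ ξ : ℝ, ξ ≠ 0 → ‖Φ ξ - 1‖ ≤ |ξ| * ((V + 1) / 2) := by
    intro ξ hξ
    have hx : 0 < |ξ| := abs_pos.2 hξ
    refine ((h.smul_real ξ).exp_near (hΦ ξ) (s := |ξ|⁻¹) (by positivity)).trans (le_of_eq ?_)
    rw [inv_inv, ← sq_abs]
    field_simp
  have hone : Φ 0 = 1 := by
    have h2 := hΦ 0
    refine tendsto_nhds_unique h2 (tendsto_const_nhds.congr' ?_)
    filter_upwards [eventually_gt_atTop 0] with T hT
    unfold M
    have hTc : (T : ℂ) ≠ 0 := by exact_mod_cast hT.ne'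
    simp only [zero_mul, Complex.ofReal_zero, Complex.exp_zero]
    rw [intervalIntegral.integral_const, sub_zero, Complex.real_smul, mul_one, div_self hTc]
  have hc : ContinuousAt Φ 0 := by
    rw [ContinuousAt, hone, tendsto_iff_norm_sub_tendsto_zero]
    have h3 : Tendsto (fun ξ : ℝ => |ξ| * ((V + 1) / 2)) (𝓝 0) (𝓝 0) := by
      have : Continuous fun ξ : ℝ => |ξ| * ((V + 1) / 2) := by fun_prop
      simpa using this.tendsto 0
    refine squeeze_zero (fun ξ => norm_nonneg _) (fun ξ => ?_) h3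
    by_cases hξ : ξ = 0
    · rw [hξ, hone]
      simp
    · exact hnear ξ hξ
  obtain ⟨ν, -, hν⟩ := law_tendsto hg hc hlim
  exact ⟨ν, hν⟩

/-! ### the moments -/

/-- bounded continuous test functions -/
theorem test_tendsto (hg : Measurable g) {ν : ProbabilityMeasure ℝ}
    (hν : Tendsto (lawP hg) atTop (𝓝 ν)) {φ : ℝ → ℝ} (hφ : Continuous φ) {B : ℝ}
    (hB : ∀ x, |φ x| ≤ B) : Tendsto (MR fun u => φ (g u)) atTop (𝓝 (∫ x, φ x ∂(ν : Measure ℝ))) := by
  have h1 := (ProbabilityMeasure.tendsto_iff_forall_integral_tendsto.1 hν)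
    (BoundedContinuousFunction.ofNormedAddCommGroup φ hφ B hB)
  refine h1.congr' ?_
  filter_upwards [eventually_gt_atTop 0] with T hT
  exact law_real hg hφ.measurable hT

/-- the truncated square -/
noncomputable def tr (R x : ℝ) : ℝ := min (x ^ 2) R

theorem tr_cont (R : ℝ) : Continuous (tr R) := by
  unfold tr
  fun_prop

theorem tr_nonneg {R : ℝ} (hR : 0 ≤ R) (x : ℝ) : 0 ≤ tr R x := le_min (sq_nonneg x) hR

theorem tr_bound {R : ℝ} (hR : 0 ≤ R) (x : ℝ) : |tr R x| ≤ R := by
  rw [abs_of_nonneg (tr_nonneg hR x)]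
  exact min_le_right _ _

theorem sq_int (h : L2 fun u => (g u : ℂ)) {T : ℝ} (hT : 0 < T) :
    IntervalIntegrable (fun u => g u ^ 2) volume 0 T := by
  have h1 := h.sq hT
  simpa only [Complex.norm_real, Real.norm_eq_abs, sq_abs] using h1

theorem bdd_int (hg : Measurable g) {φ : ℝ → ℝ} (hφ : Measurable φ) {B : ℝ} (hB : ∀ x, |φ x| ≤ B)
    {T : ℝ} (hT : 0 < T) : IntervalIntegrable (fun u => φ (g u)) volume 0 T := by
  rw [intervalIntegrable_iff_integrableOn_Ioc_of_le hT.le]
  exact Integrable.mono' (g := fun _ => B) (integrableOn_const (by simp))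
    (hφ.comp hg).aestronglyMeasurable (Eventually.of_forall fun u => hB _)

/-- uniform integrability of the squares -/
theorem Par.unif (h : Par (fun u => (g u : ℂ)) a V) (hg : Measurable g) {ε : ℝ} (hε : 0 < ε) :
    ∃ R₀ : ℝ, 0 ≤ R₀ ∧ ∀ R : ℝ, R₀ ≤ R → ∀ᶠ T : ℝ in atTop,
      MR (fun u => g u ^ 2) T - ε ≤ MR (fun u => tr R (g u)) T := by
  obtain ⟨Z, hZ⟩ := (h.pa.eventually (Metric.ball_mem_nhds V (show 0 < ε / 4 by positivity))).exists
  have hZ2 : V - ∑ t ∈ Z, ‖a t‖ ^ 2 < ε / 4 := by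
    have h3 : dist (∑ t ∈ Z, ‖a t‖ ^ 2) V < ε / 4 := hZ
    rw [Real.dist_eq, abs_lt] at h3
    linarith [h3.1]
  set B : ℝ := ∑ τ ∈ Z, ‖a τ‖ with hB
  have hB0 : 0 ≤ B := Finset.sum_nonneg fun τ _ => norm_nonneg _
  refine ⟨4 * B ^ 2, by positivity, fun R hR => ?_⟩
  have hR0 : 0 ≤ R := le_trans (by positivity) hR
  filter_upwards [(h.err Z).eventually (gt_mem_nhds hZ2), eventually_gt_atTop 0] with T k1 hT
  have i1 := sq_int h.loc hT
  have i2 := bdd_int hg (tr_cont R).measurable (tr_bound hR0) hT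
  have i3 := (h.loc.sub (tp_l2 Z a)).sq hT
  have key : ∀ u : ℝ, g u ^ 2 ≤ tr R (g u) + 4 * ‖(g u : ℂ) - Tp Z a u‖ ^ 2 := by
    intro u
    unfold tr
    rcases le_total (g u ^ 2) R with h1 | h1
    · rw [min_eq_left h1]
      have : 0 ≤ 4 * ‖(g u : ℂ) - Tp Z a u‖ ^ 2 := by positivity
      linarith
    · rw [min_eq_right h1]
      have h2 : 2 * B ≤ |g u| := by
        have h3 : (2 * B) ^ 2 ≤ |g u| ^ 2 := by
          rw [sq_abs]
          nlinarith
        exact (pow_le_pow_iff_left₀ (by positivity) (abs_nonneg _) two_ne_zero).1 h3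
      have h4 : |g u| - B ≤ ‖(g u : ℂ) - Tp Z a u‖ := by
        have h5 := norm_sub_norm_le (g u : ℂ) (Tp Z a u)
        rw [Complex.norm_real, Real.norm_eq_abs] at h5
        have h6 := tp_bound Z a u
        rw [← hB] at h6
        linarith
      have h7 : |g u| ≤ 2 * ‖(g u : ℂ) - Tp Z a u‖ := by linarith
      have h8 : |g u| ^ 2 ≤ (2 * ‖(g u : ℂ) - Tp Z a u‖) ^ 2 :=
        pow_le_pow_left₀ (abs_nonneg _) h7 2
      rw [sq_abs, mul_pow] at h8
      linarith
  have h1 : ∫ u in (0 : ℝ)..T, g u ^ 2 ≤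
      ∫ u in (0 : ℝ)..T, (tr R (g u) + 4 * ‖(g u : ℂ) - Tp Z a u‖ ^ 2) :=
    intervalIntegral.integral_mono_on hT.le i1 (i2.add (i3.const_mul 4)) fun u _ => key u
  rw [intervalIntegral.integral_add i2 (i3.const_mul 4), intervalIntegral.integral_const_mul] at h1
  unfold MR at k1 ⊢
  rw [div_lt_iff₀ hT] at k1
  rw [sub_le_iff_le_add, div_add' _ _ _ hT.ne', div_le_div_iff_of_pos_right hT]
  linarith

theorem Par.ms_real (h : Par (fun u => (g u : ℂ)) a V) :
    Tendsto (MR fun u => g u ^ 2) atTop (𝓝 V) := by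
  have h1 := h.ms
  simpa only [Complex.norm_real, Real.norm_eq_abs, sq_abs] using h1

theorem Par.tr_lim (h : Par (fun u => (g u : ℂ)) a V) (hg : Measurable g) {ν : ProbabilityMeasure ℝ}
    (hν : Tendsto (lawP hg) atTop (𝓝 ν)) :
    Tendsto (fun n : ℕ => ∫ x, tr n x ∂(ν : Measure ℝ)) atTop (𝓝 V) ∧
      ∀ n : ℕ, ∫ x, tr n x ∂(ν : Measure ℝ) ≤ V := by
  have hle : ∀ n : ℕ, ∫ x, tr n x ∂(ν : Measure ℝ) ≤ V := by
    intro n
    refine le_of_tendsto_of_tendsto (test_tendsto hg hν (tr_cont n) (tr_bound (Nat.cast_nonneg n)))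
      h.ms_real ?_
    filter_upwards [eventually_gt_atTop 0] with T hT
    unfold MR
    refine div_le_div_of_nonneg_right ?_ hT.le
    exact intervalIntegral.integral_mono_on hT.le
      (bdd_int hg (tr_cont n).measurable (tr_bound (Nat.cast_nonneg n)) hT) (sq_int h.loc hT)
      fun u _ => min_le_left _ _
  refine ⟨?_, hle⟩
  rw [Metric.tendsto_atTop]
  intro ε hε
  obtain ⟨R₀, -, hR⟩ := h.unif hg (half_pos hε)
  obtain ⟨N, hN⟩ := exists_nat_ge R₀
  refine ⟨N, fun n hn => ?_⟩
  have hn' : R₀ ≤ n := hN.trans (by exact_mod_cast hn)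
  have h1 : V - ε / 2 ≤ ∫ x, tr n x ∂(ν : Measure ℝ) :=
    le_of_tendsto_of_tendsto (h.ms_real.sub_const (ε / 2))
      (test_tendsto hg hν (tr_cont n) (tr_bound (Nat.cast_nonneg n))) (hR n hn')
  rw [Real.dist_eq, abs_lt]
  constructor
  · linarith
  · linarith [hle n]

theorem Par.second (h : Par (fun u => (g u : ℂ)) a V) (hg : Measurable g) {ν : ProbabilityMeasure ℝ}
    (hν : Tendsto (lawP hg) atTop (𝓝 ν)) :
    Integrable (fun x : ℝ => x ^ 2) (ν : Measure ℝ) ∧ ∫ x, x ^ 2 ∂(ν : Measure ℝ) = V := by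
  obtain ⟨h1, h2⟩ := h.tr_lim hg hν
  have hint : ∀ n : ℕ, Integrable (tr n) (ν : Measure ℝ) := fun n =>
    Integrable.mono' (g := fun _ => (n : ℝ)) (integrable_const _)
      (tr_cont n).aestronglyMeasurable (Eventually.of_forall fun x => tr_bound (Nat.cast_nonneg n) x)
  have hmono : ∀ x : ℝ, Monotone fun n : ℕ => tr n x := fun x m n hmn =>
    min_le_min le_rfl (by exact_mod_cast hmn)
  have htend : ∀ x : ℝ, Tendsto (fun n : ℕ => tr n x) atTop (𝓝 (x ^ 2)) := by
    intro x
    refine tendsto_const_nhds.congr' ?_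
    filter_upwards [tendsto_natCast_atTop_atTop.eventually_ge_atTop (x ^ 2)] with n hn
    exact (min_eq_left hn).symm
  have h3 : ∫⁻ x, ENNReal.ofReal (x ^ 2) ∂(ν : Measure ℝ) ≤ ENNReal.ofReal V := by
    have h4 := lintegral_tendsto_of_tendsto_of_monotone (μ := (ν : Measure ℝ))
      (f := fun n : ℕ => fun x : ℝ => ENNReal.ofReal (tr n x)) (F := fun x => ENNReal.ofReal (x ^ 2))
      (fun n => (tr_cont n).measurable.ennreal_ofReal.aemeasurable)
      (Eventually.of_forall fun x m n hmn => ENNReal.ofReal_le_ofReal (hmono x hmn))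
      (Eventually.of_forall fun x => ENNReal.tendsto_ofReal (htend x))
    refine le_of_tendsto h4 (Eventually.of_forall fun n => ?_)
    rw [← ofReal_integral_eq_lintegral_ofReal (hint n)
      (Eventually.of_forall fun x => tr_nonneg (Nat.cast_nonneg n) x)]
    exact ENNReal.ofReal_le_ofReal (h2 n)
  have hI : Integrable (fun x : ℝ => x ^ 2) (ν : Measure ℝ) := by
    refine ⟨(continuous_pow 2).aestronglyMeasurable, ?_⟩
    rw [hasFiniteIntegral_iff_ofReal (Eventually.of_forall fun x => sq_nonneg x)]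
    exact h3.trans_lt ENNReal.ofReal_lt_top
  refine ⟨hI, ?_⟩
  have h5 := integral_tendsto_of_tendsto_of_monotone hint hI (Eventually.of_forall hmono)
    (Eventually.of_forall htend)
  exact tendsto_nhds_unique h5 h1

/-- the truncated function -/
noncomputable def tc (R x : ℝ) : ℝ := max (-R) (min x R)

theorem tc_cont (R : ℝ) : Continuous (tc R) := by
  unfold tc
  fun_prop

theorem tc_bound {R : ℝ} (hR : 0 ≤ R) (x : ℝ) : |tc R x| ≤ R := by
  unfold tc
  rw [abs_le]
  exact ⟨le_max_left _ _, max_le (by linarith) (min_le_right _ _)⟩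

theorem tc_sub {R : ℝ} (hR : 0 < R) (x : ℝ) : |x - tc R x| ≤ x ^ 2 / R := by
  unfold tc
  have h0 : 0 ≤ x ^ 2 / R := by positivity
  rcases le_total x R with h1 | h1
  · rw [min_eq_left h1]
    rcases le_total (-R) x with h2 | h2
    · rw [max_eq_right h2, sub_self, abs_zero]
      exact h0
    · rw [max_eq_left h2, abs_le, le_div_iff₀ hR, neg_le, le_div_iff₀ hR]
      constructor <;> nlinarith
  · rw [min_eq_right h1, max_eq_right (by linarith), abs_of_nonneg (by linarith), le_div_iff₀ hR]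
    nlinarith

theorem Par.first (h : Par (fun u => (g u : ℂ)) a V) (hg : Measurable g) {ν : ProbabilityMeasure ℝ}
    (hν : Tendsto (lawP hg) atTop (𝓝 ν)) : ∫ x, x ∂(ν : Measure ℝ) = (a 0).re := by
  obtain ⟨hI, hV⟩ := h.second hg hν
  have hI1 : Integrable (fun x : ℝ => x) (ν : Measure ℝ) := by
    have h1 : MemLp (fun x : ℝ => x) 2 (ν : Measure ℝ) :=
      (memLp_two_iff_integrable_sq continuous_id.aestronglyMeasurable).2 hI
    exact h1.integrable (by norm_num)
  have hm : Tendsto (MR g) atTop (𝓝 (a 0).re) := by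
    have h1 := (Complex.continuous_re.tendsto _).comp (h.co 0)
    refine h1.congr fun T => ?_
    rw [Function.comp_apply]
    have e : (fun u : ℝ => (g u : ℂ) * exp (-(((0 : ℝ) : ℂ) * I * u))) = fun u => (g u : ℂ) := by
      funext u
      simp
    rw [e, M_ofReal, Complex.ofReal_re]
  have key : ∀ R : ℝ, 0 < R → |(a 0).re - ∫ x, x ∂(ν : Measure ℝ)| ≤ 2 * V / R := by
    intro R hR
    have t1 := test_tendsto hg hν (tc_cont R) (tc_bound hR.le)
    have k1 : |(a 0).re - ∫ x, tc R x ∂(ν : Measure ℝ)| ≤ V / R := by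
      refine le_of_tendsto_of_tendsto (hm.sub t1).abs (h.ms_real.div_const R) ?_
      filter_upwards [eventually_gt_atTop 0] with T hT
      have ig : IntervalIntegrable g volume 0 T := by
        have h1 := h.loc.int hT
        rw [intervalIntegrable_iff_integrableOn_Ioc_of_le hT.le] at h1 ⊢
        have h2 : Integrable (fun u => (g u : ℂ).re) (volume.restrict (Ioc 0 T)) := h1.re
        exact h2
      have it := bdd_int hg (tc_cont R).measurable (tc_bound hR.le) hT
      unfold MR
      rw [← sub_div, ← intervalIntegral.integral_sub ig it, abs_div, abs_of_pos hT, div_div,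
        mul_comm T R, ← div_div, div_le_div_iff_of_pos_right hT]
      have h3 := intervalIntegral.norm_integral_le_integral_norm (f := fun u => g u - tc R (g u))
        (μ := volume) hT.le
      rw [Real.norm_eq_abs] at h3
      refine h3.trans ?_
      rw [← intervalIntegral.integral_div]
      refine intervalIntegral.integral_mono_on hT.le (ig.sub it).norm ((sq_int h.loc hT).div_const R)
        fun u _ => ?_
      rw [Real.norm_eq_abs]
      exact tc_sub hR _
    have k2 : |(∫ x, tc R x ∂(ν : Measure ℝ)) - ∫ x, x ∂(ν : Measure ℝ)| ≤ V / R := by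
      have hit : Integrable (tc R) (ν : Measure ℝ) :=
        Integrable.mono' (g := fun _ => R) (integrable_const _)
          (tc_cont R).aestronglyMeasurable (Eventually.of_forall fun x => tc_bound hR.le x)
      rw [← integral_sub hit hI1, ← hV, ← integral_div]
      have h9 := norm_integral_le_integral_norm (μ := (ν : Measure ℝ)) fun x : ℝ => tc R x - x
      rw [Real.norm_eq_abs] at h9
      refine h9.trans ?_
      refine integral_mono (hit.sub hI1).norm (hI.div_const R) fun x => ?_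
      show ‖tc R x - x‖ ≤ x ^ 2 / R
      rw [Real.norm_eq_abs, abs_sub_comm]
      exact tc_sub hR x
    have k3 := abs_sub_le (a 0).re (∫ x, tc R x ∂(ν : Measure ℝ)) (∫ x, x ∂(ν : Measure ℝ))
    have e : 2 * V / R = V / R + V / R := by ring
    rw [e]
    linarith
  have hlim : Tendsto (fun R : ℝ => 2 * V / R) atTop (𝓝 0) := tendsto_const_nhds.div_atTop tendsto_id
  have h1 : |(a 0).re - ∫ x, x ∂(ν : Measure ℝ)| ≤ 0 := by
    refine ge_of_tendsto hlim ?_
    filter_upwards [eventually_gt_atTop 0] with R hR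
    exact key R hR
  have h2 := abs_nonpos_iff.1 h1
  linarith

/-! ### the statement with the means over `[e, X]` -/

/-- bounded functions of `W` -/
theorem means_eq {W φ : ℝ → ℝ} (hW : BM W) (hφ : Measurable φ) {B : ℝ} (hB : ∀ x, |φ x| ≤ B) {L : ℝ}
    (h : Tendsto (MR fun u => φ (cut W u)) atTop (𝓝 L)) :
    Tendsto (fun X : ℝ => (∫ x in Real.exp 1..X, φ (W x) / x) / Real.log X) atTop (𝓝 L) := by
  have hint : ∀ T : ℝ, 0 < T → IntervalIntegrable (fun u => φ (cut W u)) volume 0 T := by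
    intro T hT
    rw [intervalIntegrable_iff_integrableOn_Ioc_of_le hT.le]
    have hm : AEStronglyMeasurable (fun u => φ (cut W u)) volume :=
      (hφ.comp_aemeasurable (cut_meas hW).aemeasurable).aestronglyMeasurable
    exact Integrable.mono' (g := fun _ => B) (integrableOn_const (by simp)) hm.restrict
      (Eventually.of_forall fun u => hB _)
  unfold MR at h
  rw [Pool.Agent.Q5.BP.mean_from_one_real hint] at h
  have h6 := h.comp Real.tendsto_log_atTop
  refine h6.congr' ?_
  filter_upwards [eventually_ge_atTop (Real.exp 1)] with X hX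
  have hX0 : 0 < X := (Real.exp_pos 1).trans_le hX
  have hl : 1 ≤ Real.log X := Pool.Agent.TH270.MS.one_le_log hX
  have e := mn_cov (fun y => φ (W y)) hl
  rw [Real.exp_log hX0] at e
  rw [e, Function.comp_apply]
  unfold mn
  congr 1
  refine intervalIntegral.integral_congr_ae (Eventually.of_forall fun u hu => ?_)
  rw [uIoc_of_le hl] at hu
  rw [cut_of _ hu.1]

/-- the limiting distribution of `W` -/
structure LimitLaw (W : ℝ → ℝ) (ν : Measure ℝ) : Prop where
  prob : IsProbabilityMeasure ν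
  test : ∀ φ : ℝ → ℝ, Continuous φ → (∃ B : ℝ, ∀ x, |φ x| ≤ B) →
    Tendsto (fun X : ℝ => (∫ x in Real.exp 1..X, φ (W x) / x) / Real.log X) atTop (𝓝 (∫ y, φ y ∂ν))

/-- **The limiting distribution of `W`.** -/
theorem dist_of {W : ℝ → ℝ} (hW : BM W) (P : Par (fun u => (cut W u : ℂ)) a V) :
    ∃ ν : Measure ℝ, LimitLaw W ν ∧
      (∀ c : ℝ, ν {c} = 0 → Tendsto (Share W c) atTop (𝓝 (ν.real (Ioi c)))) ∧
      Integrable (fun x : ℝ => x ^ 2) ν ∧ ∫ x, x ^ 2 ∂ν = V ∧ ∫ x, x ∂ν = (a 0).re := by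
  have hm : AEMeasurable (cut W) volume := (cut_meas hW).aemeasurable
  set g : ℝ → ℝ := hm.mk (cut W) with hg
  have hgm : Measurable g := hm.measurable_mk
  have hae : cut W =ᵐ[volume] g := hm.ae_eq_mk
  have hP : Par (fun u => (g u : ℂ)) a V := P.congr_ae (by
    filter_upwards [hae] with u hu
    rw [hu])
  obtain ⟨ν, hν⟩ := hP.law_exists hgm
  obtain ⟨h1, h2⟩ := hP.second hgm hν
  have hpr : IsProbabilityMeasure (ν : Measure ℝ) := ν.2
  refine ⟨ν, ⟨hpr, ?_⟩, ?_, h1, h2, hP.first hgm hν⟩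
  · rintro φ hφ ⟨B, hB⟩
    refine means_eq hW hφ.measurable hB ?_
    refine (test_tendsto hgm hν hφ hB).congr fun T => MR_congr ?_ T
    filter_upwards [hae] with u hu
    rw [hu]
  · intro c hc
    set φ : ℝ → ℝ := fun x => if c < x then 1 else 0 with hφ
    have hφi : φ = indicator (Ioi c) (fun _ => (1 : ℝ)) := by
      funext x
      rw [hφ]
      simp only [indicator, mem_Ioi]
    have hφm : Measurable φ := by
      rw [hφi]
      exact measurable_const.indicator measurableSet_Ioi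
    have hB : ∀ x, |φ x| ≤ 1 := by
      intro x
      rw [hφ]
      simp only
      split_ifs <;> simp
    have h3 : Tendsto (fun T => ((lawP hgm T : ProbabilityMeasure ℝ) : Measure ℝ) (Ioi c)) atTop
        (𝓝 ((ν : Measure ℝ) (Ioi c))) := by
      refine ProbabilityMeasure.tendsto_measure_of_null_frontier_of_tendsto' hν ?_
      rw [frontier_Ioi]
      exact hc
    have h4 : Tendsto (fun T => (((lawP hgm T : ProbabilityMeasure ℝ) : Measure ℝ)).real (Ioi c)) atTop
        (𝓝 ((ν : Measure ℝ).real (Ioi c))) :=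
      (ENNReal.tendsto_toReal (measure_ne_top _ _)).comp h3
    have h5 : Tendsto (MR fun u => φ (cut W u)) atTop (𝓝 ((ν : Measure ℝ).real (Ioi c))) := by
      refine h4.congr' ?_
      filter_upwards [eventually_gt_atTop 0] with T hT
      have h6 := law_real hgm hφm hT
      rw [hφi, integral_indicator_const _ measurableSet_Ioi, smul_eq_mul, mul_one, ← hφi] at h6
      have h7 : MR (fun u => φ (g u)) T = MR (fun u => φ (cut W u)) T := MR_congr (by
        filter_upwards [hae] with u hu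
        rw [hu]) T
      rw [← h7, ← h6]
      rfl
    exact means_eq hW hφm hB h5

end Pool.Agent.Q5.AP
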