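import Pool.Agent.H21.L.R_pool_sql_team_seeded_2aa45f1a.Q5.AP.Rat
import Pool.Agent.H21.L.R_pool_sql_team_seeded_2aa45f1a.Results.MP_4a9ea6_nt.SimpleZeros

/-!
# The windows for elliptic curves over `ℚ`: translation
-/

set_option autoImplicit false

open MeasureTheory Filter Topology Set Complex
open Pool.Agent.TH942.ES (Sys)
open Pool.Agent.TH270.MS (BM Mc Cn Pl)
open Pool.Agent.TH270.MS.EQ (nQ alQ curve_mc growth_F star_close bm_star)
open Pool.Agent.Q5.BP (MSq FB BSq bsq_iff sqm_iff cmean_of bm_log mu mu_sq cn_ms)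
open Pool.Agent.Q5.MS (WL WV Sq bm_wl bm_pv_rpow Pv)
open Pool.Agent.W263.BSD (bsdStar bsdProduct bsdStar_pos bsdProduct_pos GoodPrime pointCount IsLSeries)
open Pool.Agent.Results.MP_92892c_nt.ExactMeanSquareRational (squares squares_eq mult)
open Pool.Agent.Results.MP_8b7eba_nt.OneWindow (pv_log hecke coef IsNewformOf NoZeros)
open Pool.Agent.Results.MP_4a9ea6_nt.SimpleZeros (IsFormOf IsCompleted RH Simple ord cE simple_order)
open Pool.Agent.Q5.SZ (LamN completed_eq lamN_diff lamN_fe lamN_L lf_shift Frk compl_frk order_link cst tz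
  not_monomial)
open CongruenceSubgroup
open scoped MatrixGroups Classical

namespace Pool.Agent.Q5.AP

section General

variable {X : Type} {d : ℕ} {N : X → ℕ} {α : X → Fin d → ℂ} {Ψ G₀ : ℂ → ℂ} {k κ : ℕ} {η C : ℝ}

/-- the law passes to close functions -/
theorem winlaw_close {P : Prop} {m : ℝ → ℕ} {l : ℝ} {f g : ℝ → ℝ} (b1 : BM fun y => Real.log y * f y)
    (b2 : BM fun y => Real.log y * g y)
    (hcl : Tendsto (fun y : ℝ => Real.log y * f y - Real.log y * g y) atTop (𝓝 0))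
    (h : WinLaw P m l f) : WinLaw P m l g := by
  obtain ⟨t, r⟩ := h
  refine ⟨?_, fun hp t' => cmean_of b1 b2 hcl t' (r hp t')⟩
  tfae_have 1 ↔ 2 := (t.out 0 1).trans (bsq_iff b1 b2 hcl)
  tfae_have 1 ↔ 3 := by
    refine (t.out 0 2).trans (exists_congr fun V => and_congr_right fun _ => ?_)
    exact sqm_iff b1 b2 hcl
  tfae_finish

/-- the sum of the squares -/
theorem mc_V (H : Mc N α Ψ G₀ k κ η C) (hz : ∀ s : ℂ, 0 < s.re → Ψ s ≠ 0) :
    ∃ V : ℝ, HasSum (fun t : ℝ => ((mu Ψ t : ℝ) / t) ^ 2) V := by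
  obtain ⟨e, g, p, he, Q⟩ := H.cn
  have hz' := H.zf.2 hz
  have hr : (p : ℝ) = k + ((p : ℝ) - k) := by ring
  obtain ⟨q, hq, -⟩ := Q.sq hz' hr
  obtain ⟨V, hV, -⟩ := cn_ms Q hz' hr hq
  exact ⟨V, by rw [← mu_sq H]; exact hV⟩

end General

variable {a b : ℤ}

/-- the squares at `x^l` -/
theorem squares_split {l x : ℝ} (hl : 0 < l) (hl1 : l < 1) (hx : 1 ≤ x) :
    squares a b (x ^ l) =
      ∑ p ∈ (Finset.range (⌊x⌋₊ + 1)).filter (fun p : ℕ => GoodPrime a b p ∧ √(x ^ l) < p),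
        (((p : ℝ) - pointCount a b p) ^ 2 - 2 * p) / (2 * (p : ℝ) ^ 2) -
      ∑ p ∈ (Finset.range (⌊x⌋₊ + 1)).filter (fun p : ℕ => GoodPrime a b p ∧ x ^ l < p),
        (((p : ℝ) - pointCount a b p) ^ 2 - 2 * p) / (2 * (p : ℝ) ^ 2) := by
  have h1 : 1 ≤ x ^ l := Real.one_le_rpow hx hl.le
  have h0 : 0 ≤ x ^ l := by linarith
  have hle : x ^ l ≤ x := by
    calc x ^ l ≤ x ^ (1 : ℝ) := Real.rpow_le_rpow_of_exponent_le hx hl1.le
      _ = x := Real.rpow_one x
  have hs : √(x ^ l) ≤ x ^ l := by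
    rw [Real.sqrt_le_left h0]
    nlinarith
  rw [eq_sub_iff_add_eq]
  unfold squares
  rw [← Finset.sum_filter_add_sum_filter_not
    ((Finset.range (⌊x⌋₊ + 1)).filter (fun p : ℕ => GoodPrime a b p ∧ √(x ^ l) < p))
    (fun p : ℕ => (p : ℝ) ≤ x ^ l)]
  congr 1
  · refine Finset.sum_congr ?_ fun _ _ => rfl
    ext q
    simp only [Finset.mem_filter, Finset.mem_range, Nat.lt_succ_iff]
    constructor
    · rintro ⟨h3, h4⟩
      have h5 := (Nat.le_floor_iff h0).1 h3
      exact ⟨⟨(Nat.le_floor_iff (h0.trans hle)).2 (h5.trans hle), h4⟩, h5⟩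
    · rintro ⟨⟨h3, h4⟩, h5⟩
      exact ⟨(Nat.le_floor_iff h0).2 h5, h4⟩
  · refine Finset.sum_congr ?_ fun _ _ => rfl
    ext q
    simp only [Finset.mem_filter, Finset.mem_range, not_le]
    constructor
    · rintro ⟨h3, h4, h5⟩
      exact ⟨⟨h3, h4, hs.trans_lt h5⟩, h5⟩
    · rintro ⟨⟨h3, h4, _⟩, h5⟩
      exact ⟨h3, h4, h5⟩

theorem bm_squares_rpow (a b : ℤ) {l : ℝ} (hl : 0 < l) (hl1 : l < 1) :
    BM fun x => squares a b (x ^ l) := by
  have h1 := BM.step (GoodPrime a b) (fun q => (((q : ℝ) - pointCount a b q) ^ 2 - 2 * q) /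
    (2 * (q : ℝ) ^ 2)) (fun x => √(x ^ l))
    (Real.continuous_sqrt.measurable.comp (measurable_id.pow_const l))
  have h2 := BM.step (GoodPrime a b) (fun q => (((q : ℝ) - pointCount a b q) ^ 2 - 2 * q) /
    (2 * (q : ℝ) ^ 2)) (fun x => x ^ l) (measurable_id.pow_const l)
  refine Pool.Agent.TH270.MS.EQ.BM.congr (h1.sub h2) fun x hx => ?_
  exact (squares_split hl hl1 (by linarith [Real.add_one_le_exp 1])).symm

theorem log_bsdStar (a b : ℤ) (x : ℝ) :
    Real.log (bsdStar a b x) = Pv (nQ a b) (alQ a b) x + squares a b x := by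
  rw [pv_log]
  unfold bsdStar
  rw [Real.log_mul (bsdProduct_pos x).ne' (Real.exp_pos _).ne', Real.log_exp]
  rfl

theorem bm_star_rpow (a b : ℤ) (E : Sys (nQ a b) (alQ a b)) {l : ℝ} (hl : 0 < l) (hl1 : l < 1) :
    BM fun x => Real.log (bsdStar a b (x ^ l)) := by
  have h := (bm_pv_rpow E hl1.le).add (bm_squares_rpow a b hl hl1)
  refine Pool.Agent.TH270.MS.EQ.BM.congr h fun x _ => ?_
  exact (log_bsdStar a b (x ^ l)).symm

/-- the windows with the squares and the windows with the prime powers -/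
theorem star_win (a b : ℤ) (ρ : ℝ) {l : ℝ} (hl : 0 < l) :
    Tendsto (fun x => Real.log x * -WL (nQ a b) (alQ a b) ρ l x - Real.log x *
      (Real.log (bsdStar a b x) - Real.log (bsdStar a b (x ^ l)) + ρ * Real.log l)) atTop (𝓝 0) := by
  obtain ⟨K, hK⟩ := star_close a b
  set D : ℝ → ℝ := fun x => Real.log (bsdStar a b x) + Pl (nQ a b) (alQ a b) x with hD
  have hK' : ∀ x : ℝ, Real.exp 1 ≤ x → |D x| ≤ |K| * x ^ (-(1 / 12 : ℝ)) := fun x hx =>
    (hK x hx).trans (mul_le_mul_of_nonneg_right (le_abs_self K)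
      (Real.rpow_nonneg ((Real.exp_pos 1).le.trans hx) _))
  have lim : ∀ c : ℝ, 0 < c → Tendsto (fun x : ℝ => |K| * (Real.log x * x ^ (-c))) atTop (𝓝 0) := by
    intro c hc
    have h3 := (isLittleO_log_rpow_atTop hc).tendsto_div_nhds_zero
    have h4 := h3.const_mul |K|
    rw [mul_zero] at h4
    refine h4.congr' ?_
    filter_upwards [eventually_gt_atTop 0] with x hx
    rw [Real.rpow_neg hx.le]
    ring
  have h1 : Tendsto (fun x : ℝ => Real.log x * D x) atTop (𝓝 0) := by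
    refine squeeze_zero_norm' ?_ (lim (1 / 12) (by norm_num))
    filter_upwards [eventually_ge_atTop (Real.exp 1)] with x hx
    have h4 : 0 ≤ Real.log x := by linarith [Pool.Agent.TH270.MS.one_le_log hx]
    rw [Real.norm_eq_abs, abs_mul, abs_of_nonneg h4]
    calc Real.log x * _ ≤ Real.log x * (|K| * x ^ (-(1 / 12 : ℝ))) :=
          mul_le_mul_of_nonneg_left (hK' x hx) h4
      _ = _ := by ring
  have h2 : Tendsto (fun x : ℝ => Real.log x * D (x ^ l)) atTop (𝓝 0) := by
    refine squeeze_zero_norm' ?_ (lim (l / 12) (by positivity))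
    filter_upwards [eventually_ge_atTop (Real.exp 1),
      (tendsto_rpow_atTop hl).eventually_ge_atTop (Real.exp 1)] with x hx hxl
    have h4 : 0 ≤ Real.log x := by linarith [Pool.Agent.TH270.MS.one_le_log hx]
    rw [Real.norm_eq_abs, abs_mul, abs_of_nonneg h4]
    have h5 := hK' (x ^ l) hxl
    rw [← Real.rpow_mul ((Real.exp_pos 1).le.trans hx)] at h5
    have e : l * -(1 / 12 : ℝ) = -(l / 12) := by ring
    rw [e] at h5
    calc Real.log x * _ ≤ Real.log x * (|K| * x ^ (-(l / 12))) :=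
          mul_le_mul_of_nonneg_left h5 h4
      _ = _ := by ring
  have h3 := h2.sub h1
  rw [sub_zero] at h3
  refine h3.congr fun x => ?_
  rw [hD]
  unfold WL
  ring

/-! ### the completed `L`-function -/

variable {N : ℕ} [NeZero N] {f : CuspForm (Gamma0 N : Subgroup (GL (Fin 2) ℝ)) 2} {w : ℝ} {F : ℂ → ℂ}

/-- everything about the completed `L`-function and its zeros -/
theorem central (hΔ : 4 * a ^ 3 + 27 * b ^ 2 ≠ 0) (hF : IsLSeries a b F) (hf : IsFormOf a b N f w) :
    ∃ Λ : ℂ → ℂ, IsCompleted f Λ ∧ (∀ Λ', IsCompleted f Λ' → Λ' = Λ) ∧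
      (∀ s : ℂ, Λ (2 - s) = (w : ℂ) * Λ s) ∧
      (∀ z : ℂ, 1 ≤ z.re → analyticOrderAt F z = analyticOrderAt Λ z) ∧
      analyticOrderAt F 1 = ord Λ ∧
      (RH Λ ↔ NoZeros F) ∧ (∀ t : ℝ, mult F t = mult Λ t) ∧
      (RH Λ → HasSum (fun t : ℝ => (mult Λ t : ℝ) / t ^ 2) (cE Λ)) ∧ (RH Λ → 0 < cE Λ) ∧
      (RH Λ → (Simple Λ ↔ ∀ t : ℝ, t ≠ 0 → mult Λ t ≤ 1)) := by
  have hfr : Frk f w := hf.fricke
  have hcomp : IsCompleted f (LamN f) := by
    refine ⟨lamN_diff f, fun s hs => ?_⟩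
    rw [lamN_L f (by linarith), ← lf_shift f hs]
    rfl
  set Λ : ℂ → ℂ := LamN f with hΛdef
  have hΛd : Differentiable ℂ Λ := lamN_diff f
  have hfe : ∀ s : ℂ, Λ (2 - s) = (w : ℂ) * Λ s := lamN_fe hfr hf.sign
  have hlink : ∀ z : ℂ, 1 ≤ z.re → analyticOrderAt F z = analyticOrderAt Λ z := fun z hz =>
    order_link hΔ hF (hecke hf.form) (fun p hp => hf.form.points p hp) hz
  obtain ⟨r, hr⟩ := Pool.Agent.W189.ML.order_finite_all hF 1
  have hrΛ : analyticOrderAt Λ 1 = r := by rw [← hlink 1 (by simp), hr]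
  have hord : ord Λ = r := by
    unfold ord
    rw [hrΛ]
    rfl
  obtain ⟨K, hC⟩ := compl_frk hfr hf.sign hrΛ
  have hRH : RH Λ ↔ NoZeros F := by
    have e : ∀ s : ℂ, 1 ≤ s.re → (F s = 0 ↔ Λ s = 0) := by
      intro s hs
      rw [← (hF.1.analyticAt s).analyticOrderAt_ne_zero, ← (hΛd.analyticAt s).analyticOrderAt_ne_zero,
        hlink s hs]
    constructor
    · intro h s hs h0
      have := h s ((e s hs.le).1 h0)
      linarith
    · intro h s hs
      rcases lt_trichotomy s.re 1 with hlt | heq | hgt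
      · exfalso
        have h1 : Λ (2 - s) = 0 := by rw [hfe, hs, mul_zero]
        have h2 : 1 < (2 - s).re := by
          rw [Complex.sub_re]
          norm_num
          linarith
        exact h _ h2 ((e _ h2.le).2 h1)
      · exact heq
      · exact absurd ((e s hgt.le).2 hs) (h s hgt)
  have hmult : ∀ t : ℝ, mult F t = mult Λ t := by
    intro t
    unfold mult
    rw [hlink _ (by simp)]
  have hmu : ∀ t : ℝ, mu (fun z => Λ (1 + z)) t = mult Λ t := Pool.Agent.Q5.BP.mu_shift Λ 1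
  have hcst : (cst (fun z => Λ (1 + z)) r).re = cE Λ := by
    unfold cst cE
    have e : ∀ n : ℕ, iteratedDeriv n (fun z => Λ (1 + z)) 0 = iteratedDeriv n Λ 1 := by
      intro n
      rw [iteratedDeriv_comp_const_add]
      simp
    rw [e, e, hord]
  have hzero : RH Λ → ∀ v : ℂ, v ≠ 0 → Λ (1 + v) = 0 → v.re = 0 := by
    intro h v _ hv
    have := h _ hv
    simpa using this
  have htz : tz (fun z => Λ (1 + z)) = fun t : ℝ => (mult Λ t : ℝ) / t ^ 2 := by
    funext t
    unfold tz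
    rw [hmu]
  have hsum : RH Λ → HasSum (fun t : ℝ => (mult Λ t : ℝ) / t ^ 2) (cE Λ) := by
    intro h
    obtain ⟨c, h1, h2⟩ := hC.sum (hzero h)
    have h3 : c = cE Λ := by rw [← hcst, h1, Complex.ofReal_re]
    rw [← h3]
    rwa [htz] at h2
  have hsimple : RH Λ → (Simple Λ ↔ ∀ t : ℝ, t ≠ 0 → mult Λ t ≤ 1) := by
    intro h
    constructor
    · intro hS t ht
      by_cases h0 : Λ (1 + t * I) = 0
      · have h3 := (simple_order hΛd h0).1 (hS _ (fun h4 => ht (by
          have := congrArg Complex.im h4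
          simpa using this)) h0)
        unfold mult
        rw [h3]
        exact le_rfl
      · unfold mult
        rw [((hΛd.analyticAt _).analyticOrderAt_eq_zero).2 h0]
        exact Nat.zero_le 1
    · intro hm s hs h0
      have h3 : s = 1 + (s.im : ℂ) * I := by
        apply Complex.ext
        · simp [h s h0]
        · simp
      have h4 : s.im ≠ 0 := fun h5 => hs (by rw [h3, h5]; simp)
      have h5 := hm s.im h4
      unfold mult at h5
      rw [← h3] at h5
      rw [simple_order hΛd h0]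
      have h6 : analyticOrderAt Λ s ≠ 0 := by
        rw [(hΛd.analyticAt s).analyticOrderAt_ne_zero]
        exact h0
      have h7 : analyticOrderAt Λ s ≠ ⊤ := by
        intro h8
        rw [analyticOrderAt_eq_top] at h8
        have han : AnalyticOnNhd ℂ Λ Set.univ := fun z _ => hΛd.analyticAt z
        have h9 := han.eqOn_zero_of_preconnected_of_eventuallyEq_zero isPreconnected_univ
          (Set.mem_univ s) h8
        have h10 : analyticOrderAt Λ 1 = ⊤ := by
          rw [analyticOrderAt_eq_top]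
          exact Eventually.of_forall fun z => h9 (Set.mem_univ z)
        rw [hrΛ] at h10
        exact ENat.natCast_ne_top _ h10
      obtain ⟨n, hn⟩ := ENat.ne_top_iff_exists.1 h7
      rw [← hn] at h5 h6 ⊢
      have h8 : n ≤ 1 := by simpa using h5
      have h9 : n ≠ 0 := fun h => h6 (by rw [h]; rfl)
      have h10 : n = 1 := by omega
      rw [h10]
      rfl
  refine ⟨Λ, hcomp, fun Λ' h' => completed_eq h'.1 h'.2, hfe, hlink, ?_, hRH, hmult, hsum, ?_, hsimple⟩
  · rw [hr, hord]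
  · intro hR
    have h3 : HasSum (tz fun z => Λ (1 + z)) (cE Λ) := by
      rw [htz]
      exact hsum hR
    exact hC.pos (hzero hR) h3 (not_monomial hf.form.one r)

end Pool.Agent.Q5.AP
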