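import Pool.Agent.H21.L.R_pool_sql_team_seeded_2aa45f1a.Q5.AP.ErrQ
import Pool.Agent.H21.L.R_pool_sql_team_seeded_2aa45f1a.Q5.SZ.Deter

/-!
# Two error terms: covariance, distance, and the curves
-/

set_option autoImplicit false

open MeasureTheory Filter Topology Set Complex
open Pool.Agent.TH270.MS (BM)
open Pool.Agent.Q5.OM (mn mn_cov loc_of)
open CongruenceSubgroup
open scoped MatrixGroups Classical

namespace Pool.Agent.Q5.AP

/-! ### analysis -/

section Analysis

variable {W₁ W₂ : ℝ → ℝ} {m₁ m₂ : ℝ → ℕ} {V₁ V₂ : ℝ}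

theorem cm_mul (m₁ m₂ : ℝ → ℕ) (t : ℝ) :
    cm m₁ t * (starRingEnd ℂ) (cm m₂ t) = (((m₁ t : ℝ) * m₂ t / t ^ 2 : ℝ) : ℂ) := by
  unfold cm
  rw [map_neg, map_div₀, map_mul, Complex.conj_I, Complex.conj_ofReal]
  have h : (starRingEnd ℂ) ((m₂ t : ℕ) : ℂ) = (m₂ t : ℂ) := by simp
  rw [h]
  push_cast
  by_cases ht : (t : ℂ) = 0
  · rw [ht]
    simp
  · field_simp
    ring_nf
    rw [I_sq]
    ring

/-- the means over `(1, T]` of a product of two functions -/
theorem prod_mean (h₁ : BM W₁) (h₂ : BM W₂) (P₁ : Par (fun u => (cut W₁ u : ℂ)) (cm m₁) V₁)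
    (P₂ : Par (fun u => (cut W₂ u : ℂ)) (cm m₂) V₂) :
    ∃ K : ℝ, HasSum (fun t : ℝ => (m₁ t : ℝ) * m₂ t / t ^ 2) K ∧
      Tendsto (fun X : ℝ => (∫ x in Real.exp 1..X, W₁ x * W₂ x / x) / Real.log X) atTop (𝓝 K) := by
  have hs := (P₁.summable P₂).hasSum
  have hc := P₁.cross P₂
  simp only [cm_mul] at hs hc
  have h3 := Complex.hasSum_re hs
  simp only [Complex.ofReal_re] at h3
  refine ⟨_, h3, ?_⟩
  have h4 := (Complex.continuous_re.tendsto _).comp hc
  have h5 : Tendsto (MR fun u => cut W₁ u * cut W₂ u) atTop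
      (𝓝 (∑' t : ℝ, (((m₁ t : ℝ) * m₂ t / t ^ 2 : ℝ) : ℂ)).re) := by
    refine h4.congr fun T => ?_
    rw [Function.comp_apply]
    have e : (fun u => (cut W₁ u : ℂ) * (starRingEnd ℂ) (cut W₂ u : ℂ)) =
        fun u => ((cut W₁ u * cut W₂ u : ℝ) : ℂ) := by
      funext u
      rw [Complex.conj_ofReal]
      push_cast
      rfl
    rw [e, M_ofReal, Complex.ofReal_re]
  unfold MR at h5
  have hint : ∀ T : ℝ, 0 < T → IntervalIntegrable (fun u => cut W₁ u * cut W₂ u) volume 0 T := by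
    intro T hT
    have h6 := (cut_l2 h₁).mul (cut_l2 h₂) hT
    rw [intervalIntegrable_iff] at h6 ⊢
    have h7 := h6.re
    refine h7.congr (Eventually.of_forall fun u => ?_)
    simp
  rw [Pool.Agent.Q5.BP.mean_from_one_real hint] at h5
  have h6 := h5.comp Real.tendsto_log_atTop
  refine h6.congr' ?_
  filter_upwards [eventually_ge_atTop (Real.exp 1)] with X hX
  have hX0 : 0 < X := (Real.exp_pos 1).trans_le hX
  have hl : 1 ≤ Real.log X := Pool.Agent.TH270.MS.one_le_log hX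
  have e := mn_cov (fun y => W₁ y * W₂ y) hl
  rw [Real.exp_log hX0] at e
  rw [e, Function.comp_apply]
  unfold mn
  congr 1
  refine intervalIntegral.integral_congr_ae (Eventually.of_forall fun u hu => ?_)
  rw [uIoc_of_le hl] at hu
  rw [cut_of _ hu.1, cut_of _ hu.1]

/-- the integrals of products -/
theorem bm_int (h₁ : BM W₁) (h₂ : BM W₂) {X : ℝ} (hX : Real.exp 1 ≤ X) :
    IntervalIntegrable (fun x => W₁ x * W₂ x / x) volume (Real.exp 1) X := by
  rw [intervalIntegrable_iff_integrableOn_Ioc_of_le hX]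
  have h3 : BM fun x => W₁ x * W₂ x := h₁.mul h₂
  obtain ⟨M, hM⟩ := h3.2 X
  have hm : AEStronglyMeasurable (fun x => W₁ x * W₂ x / x)
      (volume.restrict (Ioc (Real.exp 1) X)) := by
    have h4 : AEStronglyMeasurable (fun x => W₁ x * W₂ x) (volume.restrict (Ioc (Real.exp 1) X)) :=
      h3.1.mono_measure (Measure.restrict_mono Ioc_subset_Ioi_self le_rfl)
    exact (h4.aemeasurable.div measurable_id.aemeasurable).aestronglyMeasurable
  refine Integrable.mono' (g := fun _ => |M| / 1) (integrableOn_const (by simp)) hm ?_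
  filter_upwards [ae_restrict_mem measurableSet_Ioc] with x hx
  have hx1 : 1 ≤ x := by linarith [Real.add_one_le_exp 1, hx.1]
  rw [Real.norm_eq_abs, abs_div, abs_of_pos (by linarith : 0 < x)]
  exact div_le_div₀ (abs_nonneg M) ((hM x hx.1.le hx.2).trans (le_abs_self M)) one_pos hx1

/-- the mean square of the difference -/
theorem diff_mean (h₁ : BM W₁) (h₂ : BM W₂) {K : ℝ}
    (hS₁ : HasSum (fun t : ℝ => ((m₁ t : ℝ) / t) ^ 2) V₁)
    (hS₂ : HasSum (fun t : ℝ => ((m₂ t : ℝ) / t) ^ 2) V₂)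
    (hK : HasSum (fun t : ℝ => (m₁ t : ℝ) * m₂ t / t ^ 2) K)
    (t₁ : Tendsto (fun X : ℝ => (∫ x in Real.exp 1..X, W₁ x * W₁ x / x) / Real.log X) atTop (𝓝 V₁))
    (t₂ : Tendsto (fun X : ℝ => (∫ x in Real.exp 1..X, W₂ x * W₂ x / x) / Real.log X) atTop (𝓝 V₂))
    (t₃ : Tendsto (fun X : ℝ => (∫ x in Real.exp 1..X, W₁ x * W₂ x / x) / Real.log X) atTop (𝓝 K)) :
    HasSum (fun t : ℝ => (((m₁ t : ℝ) - m₂ t) / t) ^ 2) (V₁ + V₂ - 2 * K) ∧
      Tendsto (fun X : ℝ => (∫ x in Real.exp 1..X, (W₁ x - W₂ x) ^ 2 / x) / Real.log X) atTop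
        (𝓝 (V₁ + V₂ - 2 * K)) := by
  constructor
  · have h := (hS₁.add hS₂).sub (hK.mul_left 2)
    have e : (fun t : ℝ => (((m₁ t : ℝ) - m₂ t) / t) ^ 2) = fun t : ℝ => ((m₁ t : ℝ) / t) ^ 2 +
        ((m₂ t : ℝ) / t) ^ 2 - 2 * ((m₁ t : ℝ) * m₂ t / t ^ 2) := by
      funext t
      by_cases ht : t = 0
      · rw [ht]
        simp
      · field_simp
        ring
    rw [e]
    exact h
  · have h := (t₁.add t₂).sub (t₃.const_mul 2)
    refine h.congr' ?_
    filter_upwards [eventually_ge_atTop (Real.exp 1)] with X hX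
    have i1 := bm_int h₁ h₁ hX
    have i2 := bm_int h₂ h₂ hX
    have i3 := bm_int h₁ h₂ hX
    have e : (fun x => (W₁ x - W₂ x) ^ 2 / x) = fun x => W₁ x * W₁ x / x + W₂ x * W₂ x / x -
        2 * (W₁ x * W₂ x / x) := by
      funext x
      ring
    rw [e, intervalIntegral.integral_sub (i1.add i2) (i3.const_mul 2),
      intervalIntegral.integral_add i1 i2, intervalIntegral.integral_const_mul]
    ring

theorem sum_zero_iff {φ : ℝ → ℝ} {S : ℝ} (h : HasSum φ S) (h0 : ∀ t, 0 ≤ φ t) :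
    S = 0 ↔ ∀ t, φ t = 0 := by
  constructor
  · intro hS
    rw [hS] at h
    exact fun t => congrFun ((hasSum_zero_iff_of_nonneg h0).1 h) t
  · intro h1
    have e : φ = fun _ => 0 := funext h1
    rw [e] at h
    exact h.unique hasSum_zero

/-- the inequality of Cauchy and Schwarz, and the case of equality -/
theorem cs (hS₁ : HasSum (fun t : ℝ => ((m₁ t : ℝ) / t) ^ 2) V₁)
    (hS₂ : HasSum (fun t : ℝ => ((m₂ t : ℝ) / t) ^ 2) V₂) {K : ℝ}
    (hK : HasSum (fun t : ℝ => (m₁ t : ℝ) * m₂ t / t ^ 2) K) (hV : 0 < V₂) :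
    K ^ 2 ≤ V₁ * V₂ ∧ (K ^ 2 = V₁ * V₂ → ∃ l : ℝ, ∀ t : ℝ, t ≠ 0 → (m₁ t : ℝ) = l * m₂ t) := by
  set l : ℝ := K / V₂ with hl
  have h := (hS₁.sub (hK.mul_left (2 * l))).add (hS₂.mul_left (l ^ 2))
  have e : (fun t : ℝ => ((m₁ t : ℝ) / t) ^ 2 - 2 * l * ((m₁ t : ℝ) * m₂ t / t ^ 2) +
      l ^ 2 * ((m₂ t : ℝ) / t) ^ 2) = fun t : ℝ => (((m₁ t : ℝ) - l * m₂ t) / t) ^ 2 := by
    funext t
    by_cases ht : t = 0
    · rw [ht]
      simp
    · field_simp
      ring
  rw [e] at h
  have h0 : V₁ - 2 * l * K + l ^ 2 * V₂ = V₁ - K ^ 2 / V₂ := by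
    rw [hl]
    field_simp
    ring
  rw [h0] at h
  have h1 : 0 ≤ V₁ - K ^ 2 / V₂ := h.nonneg fun t => sq_nonneg _
  have h2 : K ^ 2 / V₂ ≤ V₁ := by linarith
  rw [div_le_iff₀ hV] at h2
  refine ⟨h2, fun heq => ⟨l, fun t ht => ?_⟩⟩
  have h3 : V₁ - K ^ 2 / V₂ = 0 := by
    rw [heq]
    field_simp
    ring
  have h4 := (sum_zero_iff h fun t => sq_nonneg _).1 h3 t
  have h5 := pow_eq_zero_iff (two_ne_zero) |>.1 h4
  rcases div_eq_zero_iff.1 h5 with h6 | h6
  · linarith
  · exact absurd h6 ht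

end Analysis

/-! ### curves with the same numbers of points -/

section Points

open Pool.Agent.TH941 Pool.Agent.TH942.RZ Pool.Agent.TH942.RZ.Growth
open Pool.Agent.W165.RS (ac)
open Pool.Agent.W263.BSD (IsLSeries GoodPrime pointCount good_of_large)
open Pool.Agent.TH270.MS.EQ (Df_ge')
open Pool.Agent.Q5.SZ (Ef_ne order_mul_ne)
open Pool.Agent.Results.MP_8b7eba_nt.OneWindow (hecke IsNewformOf)

/-- the numbers of points agree for all but finitely many primes -/
def SamePoints (a b a' b' : ℤ) : Prop :=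
  ∃ D : ℕ, ∀ p : ℕ, p.Prime → D < p → pointCount a b p = pointCount a' b' p

theorem df_ne {a b : ℤ} {N : ℕ} [NeZero N] {f : CuspForm (Gamma0 N : Subgroup (GL (Fin 2) ℝ)) 2}
    (hf : IsNewformOf a b N f) {p : ℕ} (hp : GoodPrime a b p) {z : ℂ} (hz : 1 ≤ z.re) :
    Df a b p z ≠ 0 := by
  have hH := hecke hf
  have hpt : ac f p = (p : ℂ) - (pointCount a b p : ℂ) := hf.points p hp
  by_cases hd : p ∣ N
  · have h1 : ‖(p : ℂ) - (pointCount a b p : ℂ)‖ ≤ 1 := by
      rw [← hpt]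
      exact hH.bad p hp.1 hd
    have h3 : 3 ≤ p := by
      have h2 := hp.1.two_le
      rcases Nat.lt_or_ge p 3 with h | h
      · exfalso
        have hp2 : p = 2 := by omega
        apply hp.2
        rw [hp2]
        exact Dvd.intro _ rfl
      · exact h
    have h4 := Df_ge' hp.1 h3 h1 (z := z) (by linarith)
    intro h
    rw [h, norm_zero] at h4
    linarith
  · have h1 := Ef_ne hH hp.1 hz
    have e : Df a b p z = Ef (ac f) N p z := by
      unfold Df Ef
      rw [if_neg hd, hpt]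
    rw [e]
    exact h1

/-- curves with the same numbers of points have the same zeros -/
theorem same_mult {a b a' b' : ℤ} {F F' : ℂ → ℂ} (hΔ : 4 * a ^ 3 + 27 * b ^ 2 ≠ 0)
    (hΔ' : 4 * a' ^ 3 + 27 * b' ^ 2 ≠ 0) (hF : IsLSeries a b F) (hF' : IsLSeries a' b' F')
    {N : ℕ} [NeZero N] {f : CuspForm (Gamma0 N : Subgroup (GL (Fin 2) ℝ)) 2}
    (hf : IsNewformOf a b N f) {N' : ℕ} [NeZero N']
    {f' : CuspForm (Gamma0 N' : Subgroup (GL (Fin 2) ℝ)) 2} (hf' : IsNewformOf a' b' N' f')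
    (h : SamePoints a b a' b') {z : ℂ} (hz : 1 ≤ z.re) :
    analyticOrderAt F z = analyticOrderAt F' z := by
  obtain ⟨D₀, hD₀⟩ := h
  obtain ⟨D₁, hD₁⟩ := good_of_large hΔ
  obtain ⟨D₂, hD₂⟩ := good_of_large hΔ'
  set S : Finset ℕ := (Finset.range (D₀ + D₁ + D₂ + 1)).filter Nat.Prime with hS
  have hSp : ∀ p ∈ S, p.Prime := fun p hp => (Finset.mem_filter.1 hp).2
  have hSn : ∀ p : ℕ, p.Prime → p ∉ S → D₀ + D₁ + D₂ < p := by
    intro p hp hpS
    by_contra hlt
    exact hpS (Finset.mem_filter.2 ⟨Finset.mem_range.2 (by omega), hp⟩)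
  set P : ℂ → ℂ := fun z => ∏ p ∈ S, (if GoodPrime a b p then Df a b p z else 1) with hP
  set P' : ℂ → ℂ := fun z => ∏ p ∈ S, (if GoodPrime a' b' p then Df a' b' p z else 1) with hP'
  have dP : Differentiable ℂ P := by
    intro w
    refine DifferentiableAt.fun_finsetProd fun p hp => ?_
    split_ifs
    · exact Df_differentiable _ _ (hSp p hp) w
    · exact differentiableAt_const _
  have dP' : Differentiable ℂ P' := by
    intro w
    refine DifferentiableAt.fun_finsetProd fun p hp => ?_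
    split_ifs
    · exact Df_differentiable _ _ (hSp p hp) w
    · exact differentiableAt_const _
  have nP : ∀ w : ℂ, 1 ≤ w.re → P w ≠ 0 := by
    intro w hw
    refine Finset.prod_ne_zero_iff.2 fun p _ => ?_
    split_ifs with hg
    · exact df_ne hf hg hw
    · exact one_ne_zero
  have nP' : ∀ w : ℂ, 1 ≤ w.re → P' w ≠ 0 := by
    intro w hw
    refine Finset.prod_ne_zero_iff.2 fun p _ => ?_
    split_ifs with hg
    · exact df_ne hf' hg hw
    · exact one_ne_zero
  -- the products agree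
  have hprod : ∀ w : ℂ, (3 : ℝ) / 2 < w.re → F w * P w = F' w * P' w := by
    intro w hw
    have h1 := hF.2 w hw
    have h2 := hF'.2 w hw
    have q1 : HasProd (fun p : ℕ => if p ∈ S then (if GoodPrime a b p then Df a b p w else 1) else 1)
        (P w) := by
      have this : HasProd (fun p : ℕ => if p ∈ S then (if GoodPrime a b p then Df a b p w else 1)
          else 1) (∏ p ∈ S, if p ∈ S then (if GoodPrime a b p then Df a b p w else 1) else 1) :=
        hasProd_prod_of_ne_finset_one fun p hp => if_neg hp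
      rwa [Finset.prod_congr rfl fun p hp => if_pos hp] at this
    have q2 : HasProd (fun p : ℕ => if p ∈ S then (if GoodPrime a' b' p then Df a' b' p w else 1)
        else 1) (P' w) := by
      have this : HasProd (fun p : ℕ => if p ∈ S then (if GoodPrime a' b' p then Df a' b' p w else 1)
          else 1) (∏ p ∈ S, if p ∈ S then (if GoodPrime a' b' p then Df a' b' p w else 1) else 1) :=
        hasProd_prod_of_ne_finset_one fun p hp => if_neg hp
      rwa [Finset.prod_congr rfl fun p hp => if_pos hp] at this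
    have h3 := h1.mul q1
    have h4 := h2.mul q2
    refine h3.unique ?_
    convert! h4 using 1
    funext p
    by_cases hpS : p ∈ S
    · rw [if_pos hpS, if_pos hpS]
      have k1 : (if GoodPrime a b p then (1 - ((p : ℂ) - (pointCount a b p : ℂ)) * (p : ℂ) ^ (-w) +
          (p : ℂ) ^ (1 - 2 * w))⁻¹ else 1) * (if GoodPrime a b p then Df a b p w else 1) = 1 := by
        split_ifs with hg
        · exact inv_mul_cancel₀ (df_ne hf hg (by linarith))
        · exact one_mul 1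
      have k2 : (if GoodPrime a' b' p then (1 - ((p : ℂ) - (pointCount a' b' p : ℂ)) *
          (p : ℂ) ^ (-w) + (p : ℂ) ^ (1 - 2 * w))⁻¹ else 1) *
          (if GoodPrime a' b' p then Df a' b' p w else 1) = 1 := by
        split_ifs with hg
        · exact inv_mul_cancel₀ (df_ne hf' hg (by linarith))
        · exact one_mul 1
      rw [k1, k2]
    · rw [if_neg hpS, if_neg hpS, mul_one, mul_one]
      by_cases hp : p.Prime
      · have h5 := hSn p hp hpS
        rw [if_pos (hD₁ p hp (by omega)), if_pos (hD₂ p hp (by omega)), hD₀ p hp (by omega)]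
      · rw [if_neg fun h => hp h.1, if_neg fun h => hp h.1]
  have heq : (fun w => F w * P w) = fun w => F' w * P' w := by
    have a1 : AnalyticOnNhd ℂ (fun w => F w * P w) Set.univ := fun w _ =>
      (hF.1.mul dP).analyticAt w
    have a2 : AnalyticOnNhd ℂ (fun w => F' w * P' w) Set.univ := fun w _ =>
      (hF'.1.mul dP').analyticAt w
    refine AnalyticOnNhd.eq_of_eventuallyEq a1 a2 (z₀ := 4) ?_
    have hV : IsOpen {z : ℂ | (3 : ℝ) / 2 < z.re} := isOpen_lt continuous_const Complex.continuous_re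
    have h4 : (4 : ℂ) ∈ {z : ℂ | (3 : ℝ) / 2 < z.re} := by
      show (3 : ℝ) / 2 < (4 : ℂ).re
      norm_num
    filter_upwards [hV.mem_nhds h4] with w hw
    exact hprod w hw
  rw [← order_mul_ne (hF.1.analyticAt z) (dP.analyticAt z) (nP z hz), heq,
    order_mul_ne (hF'.1.analyticAt z) (dP'.analyticAt z) (nP' z hz)]

end Points

end Pool.Agent.Q5.AP
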