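import Mathlib

/-!
# Limiting distributions of functions on the real line
-/

set_option autoImplicit false

open MeasureTheory Filter Topology Set Complex
open scoped RealInnerProductSpace

namespace Pool.Agent.Q5.AP

variable {E : Type*} [NormedAddCommGroup E] [InnerProductSpace ℝ E] [FiniteDimensional ℝ E]
  [MeasurableSpace E] [BorelSpace E]

/-- the law of `g u`, `u` uniformly distributed in `(0, T]` -/
noncomputable def law (g : ℝ → E) (T : ℝ) : Measure E :=
  (volume.restrict (Ioc (0 : ℝ) 1)).map fun x => g (T * x)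

theorem unit_prob : IsProbabilityMeasure (volume.restrict (Ioc (0 : ℝ) 1)) := ⟨by simp⟩

variable {g : ℝ → E}

omit [NormedAddCommGroup E] [InnerProductSpace ℝ E] [FiniteDimensional ℝ E] [BorelSpace E] in
theorem law_prob (hg : Measurable g) (T : ℝ) : IsProbabilityMeasure (law g T) := by
  have := unit_prob
  exact Measure.isProbabilityMeasure_map (hg.comp (measurable_const_mul T)).aemeasurable

theorem law_integral (hg : Measurable g) {F : Type*} [NormedAddCommGroup F] [NormedSpace ℝ F]
    {φ : E → F} (hφ : StronglyMeasurable φ) {T : ℝ} (hT : 0 < T) :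
    ∫ x, φ x ∂(law g T) = T⁻¹ • ∫ u in (0 : ℝ)..T, φ (g u) := by
  have hm : Measurable fun x => g (T * x) := hg.comp (measurable_const_mul T)
  unfold law
  rw [integral_map hm.aemeasurable hφ.aestronglyMeasurable,
    ← intervalIntegral.integral_of_le zero_le_one,
    intervalIntegral.integral_comp_mul_left (fun u => φ (g u)) hT.ne', mul_zero, mul_one]

/-- the law as a probability measure -/
noncomputable def lawP (hg : Measurable g) (T : ℝ) : ProbabilityMeasure E :=
  ⟨law g T, law_prob hg T⟩

theorem exists_charFun_eq {μ : ℕ → ProbabilityMeasure E} {Φ : E → ℂ} (hc : ContinuousAt Φ 0)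
    (h : ∀ t, Tendsto (fun n => charFun (μ n : Measure E) t) atTop (𝓝 (Φ t))) :
    ∃ ν : ProbabilityMeasure E, ∀ t, charFun (ν : Measure E) t = Φ t := by
  have ht : IsTightMeasureSet (Set.range fun n => (μ n : Measure E)) :=
    isTightMeasureSet_of_tendsto_charFun hc h
  have hK : IsCompact (closure (Set.range μ)) := by
    refine isCompact_closure_of_isTightMeasureSet ?_
    convert! ht using 1
    ext ν
    constructor
    · rintro ⟨_, ⟨n, rfl⟩, rfl⟩
      exact ⟨n, rfl⟩
    · rintro ⟨n, rfl⟩
      exact ⟨_, ⟨n, rfl⟩, rfl⟩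
  set U : Ultrafilter ℕ := Ultrafilter.of atTop with hU
  obtain ⟨ν, -, hν⟩ := hK.ultrafilter_le_nhds (U.map μ) (by
    rw [Filter.le_principal_iff]
    refine Filter.mem_map.2 (Filter.univ_mem' fun n => subset_closure ⟨n, rfl⟩))
  refine ⟨ν, fun t => ?_⟩
  have h1 : Tendsto μ U (𝓝 ν) := hν
  have h2 : Tendsto (fun n => charFun (μ n : Measure E) t) U (𝓝 (charFun (ν : Measure E) t)) := by
    rw [ProbabilityMeasure.tendsto_iff_forall_integral_rclike_tendsto ℂ] at h1
    simp_rw [charFun_eq_integral_innerProbChar]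
    exact h1 (BoundedContinuousFunction.innerProbChar t)
  exact tendsto_nhds_unique h2 ((h t).mono_left (Ultrafilter.of_le _))

/-- **The limiting distribution.** -/
theorem law_tendsto (hg : Measurable g) {Φ : E → ℂ} (hc : ContinuousAt Φ 0)
    (h : ∀ t, Tendsto (fun T : ℝ => charFun (law g T) t) atTop (𝓝 (Φ t))) :
    ∃ ν : ProbabilityMeasure E, (∀ t, charFun (ν : Measure E) t = Φ t) ∧
      Tendsto (lawP hg) atTop (𝓝 ν) := by
  obtain ⟨ν, hν⟩ := exists_charFun_eq (μ := fun n : ℕ => lawP hg n) hc fun t =>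
    (h t).comp tendsto_natCast_atTop_atTop
  refine ⟨ν, hν, tendsto_of_seq_tendsto fun x hx => ?_⟩
  refine ProbabilityMeasure.tendsto_of_tendsto_charFun fun t => ?_
  rw [hν t]
  exact (h t).comp hx

end Pool.Agent.Q5.AP
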