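import Pool.Agent.H21.L.R_pool_sql_team_seeded_2aa45f1a.Q5.BP.Coeff

/-!
# Functions with a mean square, Fourier-Bohr coefficients and the formula of Parseval
-/

set_option autoImplicit false

open MeasureTheory Filter Topology Set Complex
open Pool.Agent.Q5.BP (exp_mean trig_mean trig_coeff loc_int mul_exp_loc)

namespace Pool.Agent.Q5.AP

/-- local square integrability -/
def L2 (f : ℝ → ℂ) : Prop := ∀ T : ℝ, 0 < T → MemLp f 2 (volume.restrict (Ioc 0 T))

/-- the mean over `(0, T]` -/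
noncomputable def M (f : ℝ → ℂ) (T : ℝ) : ℂ := (∫ u in (0 : ℝ)..T, f u) / T

/-- the mean over `(0, T]` -/
noncomputable def MR (f : ℝ → ℝ) (T : ℝ) : ℝ := (∫ u in (0 : ℝ)..T, f u) / T

/-- mean square, coefficients, Parseval -/
structure Par (f : ℝ → ℂ) (a : ℝ → ℂ) (V : ℝ) : Prop where
  loc : L2 f
  ms : Tendsto (MR fun u => ‖f u‖ ^ 2) atTop (𝓝 V)
  co : ∀ t : ℝ, Tendsto (M fun u => f u * exp (-(t * I * u))) atTop (𝓝 (a t))
  pa : HasSum (fun t => ‖a t‖ ^ 2) V

variable {f g : ℝ → ℂ} {a b : ℝ → ℂ} {V W : ℝ}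

/-! ### local square integrability -/

theorem L2.int (h : L2 f) {T : ℝ} (hT : 0 < T) : IntervalIntegrable f volume 0 T := loc_int hT (h T hT)

theorem L2.sq (h : L2 f) {T : ℝ} (hT : 0 < T) :
    IntervalIntegrable (fun u => ‖f u‖ ^ 2) volume 0 T := by
  rw [intervalIntegrable_iff_integrableOn_Ioc_of_le hT.le]
  exact (memLp_two_iff_integrable_sq_norm (h T hT).aestronglyMeasurable).1 (h T hT)

theorem L2.mul (h : L2 f) (h' : L2 g) {T : ℝ} (hT : 0 < T) :
    IntervalIntegrable (fun u => f u * g u) volume 0 T := by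
  rw [intervalIntegrable_iff_integrableOn_Ioc_of_le hT.le]
  exact (h T hT).integrable_mul (h' T hT)

theorem L2.add (h : L2 f) (h' : L2 g) : L2 fun u => f u + g u := fun T hT => (h T hT).add (h' T hT)

theorem L2.sub (h : L2 f) (h' : L2 g) : L2 fun u => f u - g u := fun T hT => (h T hT).sub (h' T hT)

theorem L2.const_mul (h : L2 f) (c : ℂ) : L2 fun u => c * f u := fun T hT => (h T hT).const_mul c

theorem L2.conj (h : L2 f) : L2 fun u => (starRingEnd ℂ) (f u) := fun T hT =>
  MemLp.mono (h T hT) (Complex.continuous_conj.comp_aestronglyMeasurable (h T hT).aestronglyMeasurable)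
    (Eventually.of_forall fun u => by rw [Complex.norm_conj])

theorem L2.exp (h : L2 f) (t : ℝ) : L2 fun u => f u * exp (-(t * I * u)) := fun T hT =>
  mul_exp_loc t (h T hT)

theorem l2_cont (h : Continuous f) : L2 f := by
  intro T hT
  rw [memLp_two_iff_integrable_sq_norm h.aestronglyMeasurable]
  have h1 : Continuous fun u => ‖f u‖ ^ 2 := (h.norm).pow 2
  exact (h1.integrableOn_Icc (a := 0) (b := T)).mono_set Ioc_subset_Icc_self

theorem L2.dil (h : L2 f) {l : ℝ} (hl : 0 < l) : L2 fun u => f (l * u) := by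
  intro T hT
  have h1 := (h.int (mul_pos hl hT)).comp_mul_left (c := l)
  have h2 := (h.sq (mul_pos hl hT)).comp_mul_left (c := l)
  rw [zero_div, mul_div_cancel_left₀ _ hl.ne'] at h1 h2
  rw [intervalIntegrable_iff_integrableOn_Ioc_of_le hT.le] at h1 h2
  exact (memLp_two_iff_integrable_sq_norm h1.aestronglyMeasurable).2 h2

/-! ### means -/

theorem M_add {f g : ℝ → ℂ} {T : ℝ} (hf : IntervalIntegrable f volume 0 T)
    (hg : IntervalIntegrable g volume 0 T) : M (fun u => f u + g u) T = M f T + M g T := by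
  unfold M
  rw [intervalIntegral.integral_add hf hg, add_div]

theorem M_sub {f g : ℝ → ℂ} {T : ℝ} (hf : IntervalIntegrable f volume 0 T)
    (hg : IntervalIntegrable g volume 0 T) : M (fun u => f u - g u) T = M f T - M g T := by
  unfold M
  rw [intervalIntegral.integral_sub hf hg, sub_div]

theorem M_const_mul (c : ℂ) (f : ℝ → ℂ) (T : ℝ) : M (fun u => c * f u) T = c * M f T := by
  unfold M
  rw [intervalIntegral.integral_const_mul, mul_div_assoc]

theorem M_conj (f : ℝ → ℂ) (T : ℝ) : M (fun u => (starRingEnd ℂ) (f u)) T = (starRingEnd ℂ) (M f T) := by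
  unfold M
  rw [map_div₀, Complex.conj_ofReal]
  congr 1
  rw [intervalIntegral, intervalIntegral, map_sub, integral_conj, integral_conj]

theorem M_ofReal (f : ℝ → ℝ) (T : ℝ) : M (fun u => (f u : ℂ)) T = (MR f T : ℂ) := by
  unfold M MR
  rw [intervalIntegral.integral_ofReal, Complex.ofReal_div]

theorem MR_add {f g : ℝ → ℝ} {T : ℝ} (hf : IntervalIntegrable f volume 0 T)
    (hg : IntervalIntegrable g volume 0 T) : MR (fun u => f u + g u) T = MR f T + MR g T := by
  unfold MR
  rw [intervalIntegral.integral_add hf hg, add_div]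

/-- the inequality between the arithmetic and the geometric mean -/
theorem amgm (hf : L2 f) (hg : L2 g) {s T : ℝ} (hs : 0 < s) (hT : 0 < T) :
    ‖M (fun u => f u * g u) T‖ ≤ (s * MR (fun u => ‖f u‖ ^ 2) T + s⁻¹ * MR (fun u => ‖g u‖ ^ 2) T) / 2 := by
  unfold M MR
  rw [norm_div, Complex.norm_real, Real.norm_of_nonneg hT.le]
  have i1 := hf.sq hT
  have i2 := hg.sq hT
  have h1 : ‖∫ u in (0 : ℝ)..T, f u * g u‖ ≤
      ∫ u in (0 : ℝ)..T, (s * ‖f u‖ ^ 2 + s⁻¹ * ‖g u‖ ^ 2) / 2 := by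
    refine (intervalIntegral.norm_integral_le_integral_norm hT.le).trans ?_
    refine intervalIntegral.integral_mono_on hT.le (hf.mul hg hT).norm
      (((i1.const_mul s).add (i2.const_mul s⁻¹)).div_const 2) fun u _ => ?_
    rw [norm_mul]
    have h2 : 0 ≤ s⁻¹ * (s * ‖f u‖ - ‖g u‖) ^ 2 := by positivity
    have h3 : s⁻¹ * (s * ‖f u‖ - ‖g u‖) ^ 2 =
        s * ‖f u‖ ^ 2 + s⁻¹ * ‖g u‖ ^ 2 - 2 * (‖f u‖ * ‖g u‖) := by
      field_simp
      ring
    linarith
  have h2 : ∫ u in (0 : ℝ)..T, (s * ‖f u‖ ^ 2 + s⁻¹ * ‖g u‖ ^ 2) / 2 =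
      (s * (∫ u in (0 : ℝ)..T, ‖f u‖ ^ 2) + s⁻¹ * ∫ u in (0 : ℝ)..T, ‖g u‖ ^ 2) / 2 := by
    rw [intervalIntegral.integral_div, intervalIntegral.integral_add (i1.const_mul s)
      (i2.const_mul s⁻¹), intervalIntegral.integral_const_mul, intervalIntegral.integral_const_mul]
  rw [h2] at h1
  calc _ ≤ (s * (∫ u in (0 : ℝ)..T, ‖f u‖ ^ 2) + s⁻¹ * ∫ u in (0 : ℝ)..T, ‖g u‖ ^ 2) / 2 / T :=
        div_le_div_of_nonneg_right h1 hT.le
    _ = _ := by ring

/-! ### trigonometric polynomials -/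

/-- the trigonometric polynomial with the coefficients `c` and the frequencies `Z` -/
noncomputable def Tp (Z : Finset ℝ) (c : ℝ → ℂ) (u : ℝ) : ℂ := ∑ τ ∈ Z, c τ * exp (τ * I * u)

theorem tp_cont (Z : Finset ℝ) (c : ℝ → ℂ) : Continuous (Tp Z c) := by
  unfold Tp
  fun_prop

theorem tp_l2 (Z : Finset ℝ) (c : ℝ → ℂ) : L2 (Tp Z c) := l2_cont (tp_cont Z c)

theorem tp_ms (Z : Finset ℝ) (c : ℝ → ℂ) :
    Tendsto (MR fun u => ‖Tp Z c u‖ ^ 2) atTop (𝓝 (∑ τ ∈ Z, ‖c τ‖ ^ 2)) := trig_mean Z c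

/-- `f` against a trigonometric polynomial -/
theorem pair_tp (hf : L2 f) (hco : ∀ t : ℝ, Tendsto (M fun u => f u * exp (-(t * I * u))) atTop (𝓝 (a t)))
    (Z : Finset ℝ) (c : ℝ → ℂ) :
    Tendsto (M fun u => f u * (starRingEnd ℂ) (Tp Z c u)) atTop
      (𝓝 (∑ τ ∈ Z, a τ * (starRingEnd ℂ) (c τ))) := by
  have h1 : ∀ T : ℝ, 0 < T → M (fun u => f u * (starRingEnd ℂ) (Tp Z c u)) T =
      ∑ τ ∈ Z, M (fun u => f u * exp (-(τ * I * u))) T * (starRingEnd ℂ) (c τ) := by
    intro T hT
    have e : ∀ u : ℝ, f u * (starRingEnd ℂ) (Tp Z c u) =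
        ∑ τ ∈ Z, (f u * exp (-(τ * I * u))) * (starRingEnd ℂ) (c τ) := by
      intro u
      unfold Tp
      rw [map_sum, Finset.mul_sum]
      refine Finset.sum_congr rfl fun τ _ => ?_
      rw [map_mul, ← Complex.exp_conj]
      have h2 : (starRingEnd ℂ) ((τ : ℂ) * I * u) = -(τ * I * u) := by simp
      rw [h2]
      ring
    unfold M
    simp_rw [e]
    rw [intervalIntegral.integral_finsetSum]
    · rw [Finset.sum_div]
      refine Finset.sum_congr rfl fun τ _ => ?_
      rw [intervalIntegral.integral_mul_const]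
      ring
    · intro τ _
      exact ((hf.exp τ).int hT).mul_const _
  have h2 : Tendsto (fun T => ∑ τ ∈ Z, M (fun u => f u * exp (-(τ * I * u))) T *
      (starRingEnd ℂ) (c τ)) atTop (𝓝 (∑ τ ∈ Z, a τ * (starRingEnd ℂ) (c τ))) :=
    tendsto_finsetSum _ fun τ _ => (hco τ).mul_const _
  refine h2.congr' ?_
  filter_upwards [eventually_gt_atTop 0] with T hT
  exact (h1 T hT).symm

/-- the square of the distance -/
theorem dist_sq (z w : ℂ) : ‖z - w‖ ^ 2 = ‖z‖ ^ 2 + ‖w‖ ^ 2 - 2 * (z * (starRingEnd ℂ) w).re := by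
  rw [← Complex.normSq_eq_norm_sq, ← Complex.normSq_eq_norm_sq, ← Complex.normSq_eq_norm_sq,
    Complex.normSq_sub]

theorem add_sq' (z w : ℂ) : ‖z + w‖ ^ 2 = ‖z‖ ^ 2 + ‖w‖ ^ 2 + 2 * (z * (starRingEnd ℂ) w).re := by
  rw [← Complex.normSq_eq_norm_sq, ← Complex.normSq_eq_norm_sq, ← Complex.normSq_eq_norm_sq,
    Complex.normSq_add]

theorem M_re {f : ℝ → ℂ} {T : ℝ} (hf : IntervalIntegrable f volume 0 T) :
    (M f T).re = MR (fun u => (f u).re) T := by
  unfold M MR
  rw [Complex.div_ofReal_re]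
  congr 1
  have h1 : (∫ u in (0 : ℝ)..T, (f u).re) = (∫ u in (0 : ℝ)..T, f u).re := by
    have := Complex.reCLM.intervalIntegral_comp_comm hf
    simpa using this
  exact h1.symm

/-- **the error of the approximation by a partial sum** -/
theorem Par.err (h : Par f a V) (Z : Finset ℝ) :
    Tendsto (MR fun u => ‖f u - Tp Z a u‖ ^ 2) atTop (𝓝 (V - ∑ τ ∈ Z, ‖a τ‖ ^ 2)) := by
  have h1 := h.ms
  have h2 := tp_ms Z a
  have h3 := pair_tp h.loc h.co Z a
  have e : ∑ τ ∈ Z, a τ * (starRingEnd ℂ) (a τ) = ((∑ τ ∈ Z, ‖a τ‖ ^ 2 : ℝ) : ℂ) := by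
    push_cast
    refine Finset.sum_congr rfl fun τ _ => ?_
    rw [Complex.mul_conj']
  rw [e] at h3
  have h4 := (Complex.continuous_re.tendsto _).comp h3
  rw [Complex.ofReal_re] at h4
  have h5 := (h1.add h2).sub (h4.const_mul 2)
  have e2 : V + ∑ τ ∈ Z, ‖a τ‖ ^ 2 - 2 * ∑ τ ∈ Z, ‖a τ‖ ^ 2 = V - ∑ τ ∈ Z, ‖a τ‖ ^ 2 := by ring
  rw [e2] at h5
  refine h5.congr' ?_
  filter_upwards [eventually_gt_atTop 0] with T hT
  have i1 := h.loc.sq hT
  have i2 := (tp_l2 Z a).sq hT
  have i3 := h.loc.mul (tp_l2 Z a).conj hT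
  have i3' : IntervalIntegrable (fun u => (f u * (starRingEnd ℂ) (Tp Z a u)).re) volume 0 T := by
    rw [intervalIntegrable_iff] at i3 ⊢
    exact i3.re
  rw [Function.comp_apply, M_re i3]
  unfold MR
  rw [← add_div, mul_div_assoc', ← sub_div, ← intervalIntegral.integral_add i1 i2,
    ← intervalIntegral.integral_const_mul, ← intervalIntegral.integral_sub (i1.add i2)
      (i3'.const_mul 2)]
  congr 1
  refine intervalIntegral.integral_congr fun u _ => ?_
  exact (dist_sq _ _).symm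

theorem Par.nonneg (h : Par f a V) : 0 ≤ V := h.pa.nonneg fun t => by positivity

theorem prod_le (z w : ℂ) : ‖z * (starRingEnd ℂ) w‖ ≤ (‖z‖ ^ 2 + ‖w‖ ^ 2) / 2 := by
  rw [norm_mul, Complex.norm_conj]
  nlinarith [sq_nonneg (‖z‖ - ‖w‖)]

theorem Par.summable (h : Par f a V) (h' : Par g b W) :
    Summable fun t => a t * (starRingEnd ℂ) (b t) :=
  Summable.of_norm_bounded ((h.pa.summable.add h'.pa.summable).div_const 2) fun t => prod_le _ _

/-- **the correlation of two functions** -/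
theorem Par.cross (h : Par f a V) (h' : Par g b W) :
    Tendsto (M fun u => f u * (starRingEnd ℂ) (g u)) atTop
      (𝓝 (∑' t, a t * (starRingEnd ℂ) (b t))) := by
  have hs := (h.summable h').hasSum
  set L : ℂ := ∑' t, a t * (starRingEnd ℂ) (b t) with hL
  rw [Metric.tendsto_nhds]
  intro ε hε
  have hW := h'.nonneg
  set s : ℝ := 4 * (W + 1) / ε with hsd
  have hs0 : 0 < s := by positivity
  obtain ⟨Z, hZ⟩ := ((hs.eventually (Metric.ball_mem_nhds L (show 0 < ε / 4 by linarith))).and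
    (h.pa.eventually (Metric.ball_mem_nhds V (show 0 < ε / (4 * s) by positivity)))).exists
  have hZ1 : ‖∑ t ∈ Z, a t * (starRingEnd ℂ) (b t) - L‖ < ε / 4 := by
    have := hZ.1
    rwa [← dist_eq_norm]
  have hZ2 : V - ∑ t ∈ Z, ‖a t‖ ^ 2 < ε / (4 * s) := by
    have h3 : dist (∑ t ∈ Z, ‖a t‖ ^ 2) V < ε / (4 * s) := hZ.2
    rw [Real.dist_eq, abs_lt] at h3
    linarith [h3.1]
  have t1 := (h.err Z).eventually (gt_mem_nhds hZ2)
  have t2 := h'.ms.eventually (gt_mem_nhds (show W < W + 1 by linarith))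
  have t3 : Tendsto (M fun u => Tp Z a u * (starRingEnd ℂ) (g u)) atTop
      (𝓝 (∑ τ ∈ Z, a τ * (starRingEnd ℂ) (b τ))) := by
    have h1 := (Complex.continuous_conj.tendsto _).comp (pair_tp h'.loc h'.co Z a)
    have e1 : (starRingEnd ℂ) (∑ τ ∈ Z, b τ * (starRingEnd ℂ) (a τ)) =
        ∑ τ ∈ Z, a τ * (starRingEnd ℂ) (b τ) := by
      rw [map_sum]
      refine Finset.sum_congr rfl fun τ _ => ?_
      rw [map_mul, Complex.conj_conj, mul_comm]
    rw [e1] at h1
    refine h1.congr fun T => ?_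
    rw [Function.comp_apply, ← M_conj]
    congr 1
    funext u
    rw [map_mul, Complex.conj_conj, mul_comm]
  have t4 := (Metric.tendsto_nhds.1 t3) (ε / 4) (by linarith)
  filter_upwards [t1, t2, t4, eventually_gt_atTop 0] with T k1 k2 k3 hT
  have lr : L2 fun u => f u - Tp Z a u := h.loc.sub (tp_l2 Z a)
  have k4 := amgm lr h'.loc.conj hs0 hT
  simp only [Complex.norm_conj] at k4
  have k5 : M (fun u => f u * (starRingEnd ℂ) (g u)) T =
      M (fun u => Tp Z a u * (starRingEnd ℂ) (g u)) T +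
        M (fun u => (f u - Tp Z a u) * (starRingEnd ℂ) (g u)) T := by
    rw [← M_add ((tp_l2 Z a).mul h'.loc.conj hT) (lr.mul h'.loc.conj hT)]
    congr 1
    funext u
    ring
  have k6 : (s * MR (fun u => ‖f u - Tp Z a u‖ ^ 2) T + s⁻¹ * MR (fun u => ‖g u‖ ^ 2) T) / 2 < ε / 4 := by
    have e1 : s * MR (fun u => ‖f u - Tp Z a u‖ ^ 2) T < ε / 4 := by
      have := mul_lt_mul_of_pos_left k1 hs0
      have e : s * (ε / (4 * s)) = ε / 4 := by field_simp
      rwa [e] at this
    have e2 : s⁻¹ * MR (fun u => ‖g u‖ ^ 2) T < ε / 4 := by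
      have h0 : 0 < s⁻¹ := by positivity
      have := mul_lt_mul_of_pos_left k2 h0
      have e : s⁻¹ * (W + 1) = ε / 4 := by
        rw [hsd]
        field_simp
      rwa [e] at this
    linarith
  rw [dist_eq_norm] at k3 ⊢
  rw [k5]
  have e3 : M (fun u => Tp Z a u * (starRingEnd ℂ) (g u)) T +
      M (fun u => (f u - Tp Z a u) * (starRingEnd ℂ) (g u)) T - L =
      (M (fun u => Tp Z a u * (starRingEnd ℂ) (g u)) T - ∑ τ ∈ Z, a τ * (starRingEnd ℂ) (b τ)) +
      M (fun u => (f u - Tp Z a u) * (starRingEnd ℂ) (g u)) T +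
      (∑ τ ∈ Z, a τ * (starRingEnd ℂ) (b τ) - L) := by ring
  rw [e3]
  refine (norm_add₃_le).trans_lt ?_
  linarith

/-! ### operations -/

theorem Par.add (h : Par f a V) (h' : Par g b W) :
    Par (fun u => f u + g u) (fun t => a t + b t)
      (V + W + 2 * (∑' t, a t * (starRingEnd ℂ) (b t)).re) where
  loc := h.loc.add h'.loc
  ms := by
    have h1 := (Complex.continuous_re.tendsto _).comp (h.cross h')
    have h2 := (h.ms.add h'.ms).add (h1.const_mul 2)
    refine h2.congr' ?_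
    filter_upwards [eventually_gt_atTop 0] with T hT
    have i1 := h.loc.sq hT
    have i2 := h'.loc.sq hT
    have i3 := h.loc.mul h'.loc.conj hT
    have i3' : IntervalIntegrable (fun u => (f u * (starRingEnd ℂ) (g u)).re) volume 0 T := by
      rw [intervalIntegrable_iff] at i3 ⊢
      exact i3.re
    rw [Function.comp_apply, M_re i3]
    unfold MR
    rw [← add_div, mul_div_assoc', ← add_div, ← intervalIntegral.integral_add i1 i2,
      ← intervalIntegral.integral_const_mul, ← intervalIntegral.integral_add (i1.add i2)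
        (i3'.const_mul 2)]
    congr 1
    refine intervalIntegral.integral_congr fun u _ => ?_
    exact (add_sq' _ _).symm
  co t := by
    refine ((h.co t).add (h'.co t)).congr' ?_
    filter_upwards [eventually_gt_atTop 0] with T hT
    rw [← M_add ((h.loc.exp t).int hT) ((h'.loc.exp t).int hT)]
    congr 1
    funext u
    ring
  pa := by
    have h1 := (h.summable h').hasSum
    have h2 : HasSum (fun t => (a t * (starRingEnd ℂ) (b t)).re)
        (∑' t, a t * (starRingEnd ℂ) (b t)).re := Complex.hasSum_re h1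
    have h3 := (h.pa.add h'.pa).add (h2.mul_left 2)
    refine h3.congr_fun ?_ |> fun h => h
    intro t
    exact add_sq' _ _

theorem Par.const_mul (h : Par f a V) (c : ℂ) :
    Par (fun u => c * f u) (fun t => c * a t) (‖c‖ ^ 2 * V) where
  loc := h.loc.const_mul c
  ms := by
    refine (h.ms.const_mul (‖c‖ ^ 2)).congr fun T => ?_
    unfold MR
    rw [mul_div_assoc', ← intervalIntegral.integral_const_mul]
    congr 1
    refine intervalIntegral.integral_congr fun u _ => ?_
    simp only [norm_mul, mul_pow]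
  co t := by
    refine ((h.co t).const_mul c).congr fun T => ?_
    rw [← M_const_mul]
    congr 1
    funext u
    ring
  pa := by
    refine (h.pa.mul_left (‖c‖ ^ 2)).congr_fun ?_ |> fun h => h
    intro t
    simp only [norm_mul, mul_pow]

theorem Par.dil (h : Par f a V) {l : ℝ} (hl : 0 < l) :
    Par (fun u => f (l * u)) (fun t => a (t / l)) V where
  loc := h.loc.dil hl
  ms := by
    have h1 := h.ms.comp (tendsto_id.const_mul_atTop hl)
    refine h1.congr fun T => ?_
    simp only [Function.comp_apply, id]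
    unfold MR
    rw [intervalIntegral.integral_comp_mul_left (fun u => ‖f u‖ ^ 2) hl.ne', mul_zero, smul_eq_mul]
    rw [div_mul_eq_div_div, div_right_comm, ← inv_mul_eq_div l]
    ring
  co t := by
    have h1 := (h.co (t / l)).comp (tendsto_id.const_mul_atTop hl)
    refine h1.congr fun T => ?_
    simp only [Function.comp_apply, id]
    unfold M
    have e : ∀ u : ℝ, f (l * u) * exp (-(t * I * u)) =
        (fun v : ℝ => f v * exp (-(((t / l : ℝ) : ℂ) * I * v))) (l * u) := by
      intro u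
      simp only
      congr 2
      push_cast
      have : (l : ℂ) ≠ 0 := by exact_mod_cast hl.ne'
      field_simp
    have e2 : ∫ u in (0 : ℝ)..T, f (l * u) * exp (-(t * I * u)) =
        ∫ u in (0 : ℝ)..T, (fun v : ℝ => f v * exp (-(((t / l : ℝ) : ℂ) * I * v))) (l * u) :=
      intervalIntegral.integral_congr fun u _ => e u
    rw [e2, intervalIntegral.integral_comp_mul_left
      (fun v : ℝ => f v * exp (-(((t / l : ℝ) : ℂ) * I * v))) hl.ne', mul_zero, Complex.real_smul]
    push_cast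
    have : (l : ℂ) ≠ 0 := by exact_mod_cast hl.ne'
    field_simp
  pa := by
    have h1 := h.pa
    have e : Function.Bijective fun t : ℝ => t / l := by
      constructor
      · intro x y hxy
        simp only at hxy
        field_simp at hxy
        exact hxy
      · intro y
        exact ⟨y * l, by field_simp⟩
    exact (Equiv.ofBijective _ e).hasSum_iff.2 h1

end Pool.Agent.Q5.AP
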