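import Pool.Agent.H21.L.R_pool_sql_team_seeded_2aa45f1a.Q5.AP.Win
import Pool.Agent.H21.L.R_pool_sql_team_seeded_2aa45f1a.Q5.SZ.Main

/-!
# The constants of the windows and the sum over the zeros
-/

set_option autoImplicit false

open Filter Topology Set
open Pool.Agent.Q5.SZ (AtMost simple_iff)

namespace Pool.Agent.Q5.AP

variable {m : ℝ → ℕ} {c l V W : ℝ}

theorem div_bij (hl : 0 < l) : Function.Bijective fun t : ℝ => t / l := by
  constructor
  · intro x y hxy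
    simp only at hxy
    field_simp at hxy
    exact hxy
  · intro y
    exact ⟨y * l, by field_simp⟩

/-- the dilated sum -/
theorem sum_dil (hl : 0 < l) (h : HasSum (fun t : ℝ => (m t : ℝ) / t ^ 2) c) :
    HasSum (fun t : ℝ => (m (t / l) : ℝ) / t ^ 2) (c / l ^ 2) := by
  have h1 := (Equiv.ofBijective _ (div_bij hl)).hasSum_iff.2 h
  have h2 := h1.div_const (l ^ 2)
  refine h2.congr_fun ?_ |> fun h => h
  intro t
  simp only [Function.comp_apply, Equiv.ofBijective_apply]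
  rw [div_pow]
  field_simp

theorem sq_dil (hl : 0 < l) (h : HasSum (fun t : ℝ => ((m t : ℝ) / t) ^ 2) V) :
    HasSum (fun t : ℝ => ((m (t / l) : ℝ) / t) ^ 2) (V / l ^ 2) := by
  have h1 := (Equiv.ofBijective _ (div_bij hl)).hasSum_iff.2 h
  have h2 := h1.div_const (l ^ 2)
  refine h2.congr_fun ?_ |> fun h => h
  intro t
  simp only [Function.comp_apply, Equiv.ofBijective_apply]
  rw [div_pow, div_pow, div_pow]
  field_simp

/-- the lower bound for the constant of a window -/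
theorem low (hl : 0 < l) (h : HasSum (fun t : ℝ => (m t : ℝ) / t ^ 2) c)
    (hW : HasSum (fun t : ℝ => (((m t : ℝ) - m (t / l)) / t) ^ 2) W) : c / l ^ 2 - c ≤ W := by
  refine hasSum_le (fun t => ?_) ((sum_dil hl h).sub h) hW
  rw [← sub_div, div_pow]
  refine div_le_div_of_nonneg_right ?_ (sq_nonneg t)
  have h1 : ((m (t / l) : ℤ) - (m t : ℤ)) ≤ ((m t : ℤ) - (m (t / l) : ℤ)) ^ 2 := by
    have h2 : ∀ z : ℤ, z ≤ (-z) ^ 2 := fun z => by
      rw [neg_sq]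
      exact Int.le_self_sq z
    have h3 := h2 ((m (t / l) : ℤ) - (m t : ℤ))
    rwa [neg_sub] at h3
  exact_mod_cast h1

/-- windows without pairs of zeros with the ratio `l` -/
theorem gen (hl : 0 < l) (hV : HasSum (fun t : ℝ => ((m t : ℝ) / t) ^ 2) V)
    (hg : ∀ t : ℝ, t ≠ 0 → m t = 0 ∨ m (t / l) = 0)
    (hW : HasSum (fun t : ℝ => (((m t : ℝ) - m (t / l)) / t) ^ 2) W) : W = (1 + 1 / l ^ 2) * V := by
  have h1 := hV.add (sq_dil hl hV)
  have e : (fun t : ℝ => ((m t : ℝ) / t) ^ 2 + ((m (t / l) : ℝ) / t) ^ 2) =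
      fun t : ℝ => (((m t : ℝ) - m (t / l)) / t) ^ 2 := by
    funext t
    by_cases ht : t = 0
    · rw [ht]
      simp
    · rcases hg t ht with h | h
      · rw [h]
        simp only [Nat.cast_zero, zero_div]
        ring
      · rw [h]
        simp only [Nat.cast_zero, zero_div]
        ring
  rw [e] at h1
  rw [hW.unique h1]
  ring

/-- the sharp bound for the windows without pairs of zeros with the ratio `l` -/
theorem gen_bound {P : Prop} {S : ℝ → ℝ} (hl : 0 < l)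
    (h1 : P → ∃ W : ℝ, HasSum (fun t : ℝ => (((m t : ℝ) - m (t / l)) / t) ^ 2) W ∧ Tendsto S atTop (𝓝 W))
    (hV : P → ∃ V : ℝ, HasSum (fun t : ℝ => ((m t : ℝ) / t) ^ 2) V)
    (h2 : (∃ B : ℝ, ∀ᶠ X : ℝ in atTop, S X ≤ B) → P)
    (h3 : P → HasSum (fun t : ℝ => (m t : ℝ) / t ^ 2) c)
    (hg : P → ∀ t : ℝ, t ≠ 0 → m t = 0 ∨ m (t / l) = 0) :
    (AtMost S ((1 + 1 / l ^ 2) * c) ↔ P ∧ ∀ t : ℝ, t ≠ 0 → m t ≤ 1) ∧
    (∀ B : ℝ, (∀ᶠ X : ℝ in atTop, S X ≤ B) → (1 + 1 / l ^ 2) * c ≤ B) ∧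
    (P → ∃ M : ℝ, HasSum (fun t : ℝ => (m t : ℝ) * ((m t : ℝ) - 1) / t ^ 2) M ∧ 0 ≤ M ∧
      Tendsto S atTop (𝓝 ((1 + 1 / l ^ 2) * (c + M)))) := by
  have hk : 0 < 1 + 1 / l ^ 2 := by positivity
  have t1 : P → ∃ V : ℝ, HasSum (fun t : ℝ => ((m t : ℝ) / t) ^ 2) V ∧
      Tendsto (fun X => S X / (1 + 1 / l ^ 2)) atTop (𝓝 V) := by
    intro hP
    obtain ⟨W, hW, hT⟩ := h1 hP
    obtain ⟨V, hV⟩ := hV hP
    refine ⟨V, hV, ?_⟩
    have e := gen hl hV (hg hP) hW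
    have h4 := hT.div_const (1 + 1 / l ^ 2)
    rw [e, mul_div_cancel_left₀ _ hk.ne'] at h4
    exact h4
  have t2 : (∃ B : ℝ, ∀ᶠ X : ℝ in atTop, S X / (1 + 1 / l ^ 2) ≤ B) → P := by
    rintro ⟨B, hB⟩
    refine h2 ⟨B * (1 + 1 / l ^ 2), ?_⟩
    filter_upwards [hB] with X hX
    rwa [div_le_iff₀ hk] at hX
  obtain ⟨k1, k2, k3⟩ := simple_iff t1 t2 h3
  refine ⟨?_, fun B hB => ?_, fun hP => ?_⟩
  · rw [← k1]
    unfold AtMost
    constructor
    · intro h ε hε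
      filter_upwards [h (ε * (1 + 1 / l ^ 2)) (by positivity)] with X hX
      rw [div_le_iff₀ hk]
      linarith
    · intro h ε hε
      filter_upwards [h (ε / (1 + 1 / l ^ 2)) (by positivity)] with X hX
      rw [div_le_iff₀ hk, add_mul, div_mul_cancel₀ _ hk.ne'] at hX
      linarith
  · have h4 := k2 (B / (1 + 1 / l ^ 2)) (by
      filter_upwards [hB] with X hX
      exact div_le_div_of_nonneg_right hX hk.le)
    rw [le_div_iff₀ hk] at h4
    linarith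
  · obtain ⟨M, h4, h5, h6⟩ := k3 hP
    refine ⟨M, h4, h5, ?_⟩
    have h7 := h6.const_mul (1 + 1 / l ^ 2)
    refine h7.congr fun X => ?_
    field_simp

/-- the ratios of the zeros are countable -/
theorem ratios_countable (h : {t : ℝ | t ≠ 0 ∧ m t ≠ 0}.Countable) :
    {l : ℝ | 0 < l ∧ ∃ t : ℝ, t ≠ 0 ∧ m t ≠ 0 ∧ m (t / l) ≠ 0}.Countable := by
  have h1 := (h.prod h).image fun p : ℝ × ℝ => p.1 / p.2
  refine h1.mono ?_
  rintro l ⟨hl, t, ht, h2, h3⟩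
  refine ⟨(t, t / l), ⟨⟨ht, h2⟩, div_ne_zero ht hl.ne', h3⟩, ?_⟩
  simp only
  field_simp

theorem zeros_countable (hV : HasSum (fun t : ℝ => ((m t : ℝ) / t) ^ 2) V) :
    {t : ℝ | t ≠ 0 ∧ m t ≠ 0}.Countable := by
  refine hV.summable.countable_support.mono ?_
  rintro t ⟨h1, h2⟩
  have h3 : (m t : ℝ) ≠ 0 := by exact_mod_cast h2
  show ((m t : ℝ) / t) ^ 2 ≠ 0
  exact pow_ne_zero 2 (div_ne_zero h3 h1)

end Pool.Agent.Q5.AP
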