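import Pool.Agent.H21.L.R_pool_sql_team_seeded_2aa45f1a.Q5.AP.Par
import Pool.Agent.H21.L.R_pool_sql_team_seeded_2aa45f1a.Q5.BP.Pack
import Pool.Agent.H21.L.R_pool_sql_team_seeded_2aa45f1a.Q5.MS.Window2

/-!
# The windows in exact mean square
-/

set_option autoImplicit false

open MeasureTheory Filter Topology Set Complex
open Pool.Agent.TH942.LS (Dat)
open Pool.Agent.TH942.ES (lamS Sys)
open Pool.Agent.TH270.RS (cS' dat')
open Pool.Agent.TH270.MS (Sh sh_le sh_meas Cn Mc BM cov_ii tendsto_exp_iff eventually_exp_iff Pl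
  sharp_tail)
open Pool.Agent.Q5.BP (hh hh_pos hh_mul_sq mu mu_eq cn_bp Bp mean_from_one mean_from_one_real
  bdd_of_tendsto loc_int cov_iiC MSq FB BSq bsq_congr msq_tendsto fb_congr bsq_iff sqm_iff cmean_of
  bm_log)
open Pool.Agent.Q5.MS (Wn wn_meas wn_le cn_window_one WL WV wl_eq bm_wl bm_wv Sq)

namespace Pool.Agent.Q5.AP

section Dirichlet

variable {lam c : ℕ → ℝ} {δ σ : ℝ} {G₀ g : ℂ → ℂ} {k p κ : ℕ} {η C : ℝ}

/-- the coefficients of the error term -/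
noncomputable def cf (F : ℂ → ℂ) (t : ℝ) : ℂ := (mu F t : ℂ) / (t * I)

theorem norm_cf (F : ℂ → ℂ) (t : ℝ) : ‖cf F t‖ ^ 2 = ((mu F t : ℝ) / t) ^ 2 := by
  unfold cf
  rw [norm_div, norm_mul, Complex.norm_I, mul_one, Complex.norm_natCast,
    Complex.norm_real, Real.norm_eq_abs, div_pow, sq_abs, div_pow]

theorem bp_par {h : ℝ → ℂ} {F : ℂ → ℂ} {p κ : ℕ} {η C a B : ℝ} {κ₀ : ℂ} (Q : Bp h F p κ η C a B κ₀) :
    ∃ V : ℝ, Par (fun u => (u : ℂ) * h u) (cf F) V := by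
  obtain ⟨V, hV, h1⟩ := Q.mean
  refine ⟨V, fun T _ => Q.H.loc T, h1, Q.coeff, ?_⟩
  simp only [norm_cf]
  exact hV

theorem cn_par (E : Cn lam c δ σ G₀ g k p κ η C) (hne : ∀ s : ℂ, 0 < s.re → G₀ s ≠ 0) {r q : ℝ}
    (hr : (p : ℝ) = k + r) (hq : g 0 = Real.exp (r * Real.eulerMascheroniConstant - q)) :
    ∃ V : ℝ, Par (fun u => (u : ℂ) * hh lam c r q u) (cf G₀) V := by
  obtain ⟨a, B, Q⟩ := cn_bp E hne hr hq
  exact bp_par Q

/-- the window function -/
noncomputable def wf (lam c : ℕ → ℝ) (r q l u : ℝ) : ℂ :=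
  (u : ℂ) * hh lam c r q u + (-(1 / l : ℂ)) * (((l * u : ℝ) : ℂ) * hh lam c r q (l * u))

theorem wf_eq (lam c : ℕ → ℝ) (r q : ℝ) {l u : ℝ} (hl : 0 < l) (hu : 0 < u) :
    wf lam c r q l u = ((u * Wn lam c r l u : ℝ) : ℂ) := by
  unfold wf
  rw [hh_pos r q hu, hh_pos r q (mul_pos hl hu), Real.log_mul hl.ne' hu.ne']
  unfold Wn
  have : (l : ℂ) ≠ 0 := by exact_mod_cast hl.ne'
  push_cast
  field_simp
  ring

/-- the coefficients of the window -/
noncomputable def cw (F : ℂ → ℂ) (l t : ℝ) : ℂ := ((mu F t : ℂ) - mu F (t / l)) / (t * I)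

theorem cw_eq (F : ℂ → ℂ) {l : ℝ} (hl : 0 < l) (t : ℝ) :
    cf F t + (-(1 / l : ℂ)) * cf F (t / l) = cw F l t := by
  unfold cf cw
  have hl' : (l : ℂ) ≠ 0 := by exact_mod_cast hl.ne'
  by_cases ht : t = 0
  · rw [ht]
    simp
  · have ht' : (t : ℂ) ≠ 0 := by exact_mod_cast ht
    push_cast
    field_simp
    ring

theorem norm_cw (F : ℂ → ℂ) (l t : ℝ) :
    ‖cw F l t‖ ^ 2 = (((mu F t : ℝ) - mu F (t / l)) / t) ^ 2 := by
  unfold cw
  have e : ((mu F t : ℂ) - mu F (t / l)) = (((mu F t : ℝ) - mu F (t / l) : ℝ) : ℂ) := by push_cast; rfl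
  rw [e, norm_div, norm_mul, Complex.norm_I, mul_one, Complex.norm_real,
    Complex.norm_real, Real.norm_eq_abs, Real.norm_eq_abs, div_pow, sq_abs, sq_abs, div_pow]

theorem win_par (E : Cn lam c δ σ G₀ g k p κ η C) (hne : ∀ s : ℂ, 0 < s.re → G₀ s ≠ 0) {r q : ℝ}
    (hr : (p : ℝ) = k + r) (hq : g 0 = Real.exp (r * Real.eulerMascheroniConstant - q)) {l : ℝ}
    (hl : 0 < l) : ∃ V : ℝ, Par (wf lam c r q l) (cw G₀ l) V := by
  obtain ⟨V, P⟩ := cn_par E hne hr hq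
  have h1 := P.add ((P.dil hl).const_mul (-(1 / l : ℂ)))
  have e : (fun t => cf G₀ t + (-(1 / l : ℂ)) * cf G₀ (t / l)) = cw G₀ l := funext (cw_eq G₀ hl)
  rw [e] at h1
  exact ⟨_, h1⟩

theorem wint (D : Dat lam c δ σ) (r : ℝ) {l : ℝ} (hl1 : l < 1) {T : ℝ} (hT : 1 ≤ T) :
    IntegrableOn (Wn lam c r l) (Ioc 1 T) ∧ IntegrableOn (fun u => (u * Wn lam c r l u) ^ 2) (Ioc 1 T) := by
  obtain ⟨B, hB0, hB⟩ := wn_le (c := c) D r hl1
  have hb : ∀ u ∈ Ioc 1 T, |Wn lam c r l u| ≤ B * Real.exp (σ * T) := by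
    intro u hu
    have h1 := hB u
    rw [indicator_of_mem (show u ∈ Ioi (0 : ℝ) from lt_trans one_pos hu.1)] at h1
    refine h1.trans (mul_le_mul_of_nonneg_left (Real.exp_le_exp.2 ?_) hB0)
    exact mul_le_mul_of_nonneg_left hu.2 D.σ0.le
  constructor
  · refine Integrable.mono' (g := fun _ => B * Real.exp (σ * T)) (integrableOn_const (by simp))
      (wn_meas D r l).aestronglyMeasurable ?_
    filter_upwards [ae_restrict_mem measurableSet_Ioc] with u hu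
    exact hb u hu
  · refine Integrable.mono' (g := fun _ => (T * (B * Real.exp (σ * T))) ^ 2)
      (integrableOn_const (by simp))
      (((measurable_id.mul (wn_meas D r l)).pow_const 2).aestronglyMeasurable) ?_
    filter_upwards [ae_restrict_mem measurableSet_Ioc] with u hu
    have h0 : 0 < u := lt_trans one_pos hu.1
    rw [Real.norm_of_nonneg (sq_nonneg _), ← sq_abs, abs_mul, abs_of_pos h0]
    have h1 := mul_le_mul hu.2 (hb u hu) (abs_nonneg _) (by linarith)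
    exact pow_le_pow_left₀ (by positivity) h1 2

/-- **the mean square of the windows** -/
theorem cn_win_ms (E : Cn lam c δ σ G₀ g k p κ η C) (hne : ∀ s : ℂ, 0 < s.re → G₀ s ≠ 0) {r : ℝ}
    (hr : (p : ℝ) = k + r) {l : ℝ} (hl : 0 < l) :
    (∃ V : ℝ, HasSum (fun t : ℝ => (((mu G₀ t : ℝ) - mu G₀ (t / l)) / t) ^ 2) V ∧
      Tendsto (fun T : ℝ => (∫ u in (1 : ℝ)..T, (u * Wn lam c r l u) ^ 2) / T) atTop (𝓝 V)) ∧
    ∀ t : ℝ, Tendsto (fun T : ℝ => (∫ u in (1 : ℝ)..T, ((u * Wn lam c r l u : ℝ) : ℂ) *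
      exp (-(t * I * u))) / (T : ℂ)) atTop (𝓝 (cw G₀ l t)) := by
  obtain ⟨q, hq, -⟩ := E.sq hne hr
  obtain ⟨V, P⟩ := win_par E hne hr hq hl
  refine ⟨⟨V, ?_, ?_⟩, fun t => ?_⟩
  · have h := P.pa
    simp only [norm_cw] at h
    exact h
  · have h1 : Tendsto (fun T : ℝ => (∫ u in (0 : ℝ)..T, ‖wf lam c r q l u‖ ^ 2) / T) atTop (𝓝 V) := P.ms
    rw [mean_from_one_real (fun T hT => P.loc.sq hT)] at h1
    refine h1.congr' ?_
    filter_upwards [eventually_ge_atTop 1] with T hT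
    congr 1
    refine intervalIntegral.integral_congr fun u hu => ?_
    rw [uIcc_of_le hT] at hu
    rw [wf_eq lam c r q hl (by linarith [hu.1]), Complex.norm_real, Real.norm_eq_abs, sq_abs]
  · have h1 : Tendsto (fun T : ℝ => (∫ u in (0 : ℝ)..T, wf lam c r q l u * exp (-(t * I * u))) / (T : ℂ))
      atTop (𝓝 (cw G₀ l t)) := P.co t
    rw [mean_from_one (fun T hT => (P.loc.exp t).int hT)] at h1
    refine h1.congr' ?_
    filter_upwards [eventually_ge_atTop 1] with T hT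
    congr 1
    refine intervalIntegral.integral_congr fun u hu => ?_
    rw [uIcc_of_le hT] at hu
    rw [wf_eq lam c r q hl (by linarith [hu.1])]

theorem int_inv_sq {T : ℝ} (hT : 1 ≤ T) : ∫ u in (1 : ℝ)..T, (1 / u) ^ 2 ≤ 1 := by
  have h1 : ∀ x ∈ uIcc 1 T, HasDerivAt (fun u : ℝ => -u⁻¹) ((1 / x) ^ 2) x := by
    intro x hx
    rw [uIcc_of_le hT] at hx
    have hx0 : x ≠ 0 := by linarith [hx.1]
    have := (hasDerivAt_inv hx0).neg
    have h3 : (1 / x) ^ 2 = - -(x ^ 2)⁻¹ := by rw [one_div, inv_pow, neg_neg]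
    rw [h3]
    exact this
  have h2 : ContinuousOn (fun u : ℝ => (1 / u) ^ 2) (uIcc 1 T) := by
    intro x hx
    rw [uIcc_of_le hT] at hx
    have hx0 : x ≠ 0 := by linarith [hx.1]
    exact ((continuousAt_const.div continuousAt_id hx0).pow 2).continuousWithinAt
  rw [intervalIntegral.integral_eq_sub_of_hasDerivAt h1 h2.intervalIntegrable]
  have : 0 < T⁻¹ := by positivity
  norm_num
  linarith

/-- bounded square means give small means -/
theorem small_of_bdd (D : Dat lam c δ σ) {r l B : ℝ} (hl1 : l < 1)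
    (h : ∀ᶠ T : ℝ in atTop, ∫ u in (1 : ℝ)..T, (u * Wn lam c r l u) ^ 2 ≤ B * T) :
    Tendsto (fun T : ℝ => (∫ u in (1 : ℝ)..T, |Wn lam c r l u|) / T) atTop (𝓝 0) := by
  rw [Metric.tendsto_nhds]
  intro ε hε
  set s : ℝ := ε / (|B| + 1) with hs
  have hs0 : 0 < s := by positivity
  filter_upwards [h, eventually_ge_atTop 1, eventually_gt_atTop (s⁻¹ / ε)] with T h1 hT h2
  have hT0 : 0 < T := by linarith
  have i1 : IntervalIntegrable (fun u => |Wn lam c r l u|) volume 1 T :=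
    ((intervalIntegrable_iff_integrableOn_Ioc_of_le hT).2 (wint D r hl1 hT).1).abs
  have i2 : IntervalIntegrable (fun u => (u * Wn lam c r l u) ^ 2) volume 1 T :=
    (intervalIntegrable_iff_integrableOn_Ioc_of_le hT).2 (wint D r hl1 hT).2
  have i3 : IntervalIntegrable (fun u : ℝ => (1 / u) ^ 2) volume 1 T := by
    refine ContinuousOn.intervalIntegrable ?_
    intro x hx
    rw [uIcc_of_le hT] at hx
    have hx0 : x ≠ 0 := by linarith [hx.1]
    exact ((continuousAt_const.div continuousAt_id hx0).pow 2).continuousWithinAt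
  have h3 : ∫ u in (1 : ℝ)..T, |Wn lam c r l u| ≤
      ∫ u in (1 : ℝ)..T, (s * (u * Wn lam c r l u) ^ 2 + s⁻¹ * (1 / u) ^ 2) / 2 := by
    refine intervalIntegral.integral_mono_on hT i1 (((i2.const_mul s).add (i3.const_mul s⁻¹)).div_const 2)
      fun u hu => ?_
    have hu0 : 0 < u := by linarith [hu.1]
    have h4 : 0 ≤ s⁻¹ * (s * (u * |Wn lam c r l u|) - 1 / u) ^ 2 := by positivity
    have h5 : s⁻¹ * (s * (u * |Wn lam c r l u|) - 1 / u) ^ 2 =
        s * (u * |Wn lam c r l u|) ^ 2 + s⁻¹ * (1 / u) ^ 2 - 2 * |Wn lam c r l u| := by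
      field_simp
      ring
    have h6 : (u * |Wn lam c r l u|) ^ 2 = (u * Wn lam c r l u) ^ 2 := by
      rw [mul_pow, mul_pow, sq_abs]
    rw [h6] at h5
    linarith
  rw [intervalIntegral.integral_div, intervalIntegral.integral_add (i2.const_mul s)
    (i3.const_mul s⁻¹), intervalIntegral.integral_const_mul,
    intervalIntegral.integral_const_mul] at h3
  have h7 := int_inv_sq hT
  have h8 : s * (∫ u in (1 : ℝ)..T, (u * Wn lam c r l u) ^ 2) ≤ s * (|B| * T) := by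
    refine mul_le_mul_of_nonneg_left (h1.trans ?_) hs0.le
    exact mul_le_mul_of_nonneg_right (le_abs_self B) hT0.le
  have h9 : s⁻¹ * ∫ u in (1 : ℝ)..T, (1 / u) ^ 2 ≤ s⁻¹ * 1 :=
    mul_le_mul_of_nonneg_left h7 (by positivity)
  have h10 : s⁻¹ < ε * T := by
    rw [div_lt_iff₀ hε] at h2
    linarith
  have h11 : s * (|B| * T) ≤ ε * T := by
    rw [hs]
    have : ε / (|B| + 1) * (|B| * T) = ε * T * (|B| / (|B| + 1)) := by
      field_simp
    rw [this]
    have h12 : |B| / (|B| + 1) ≤ 1 := by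
      rw [div_le_one (by positivity)]
      linarith
    calc ε * T * (|B| / (|B| + 1)) ≤ ε * T * 1 := mul_le_mul_of_nonneg_left h12 (by positivity)
      _ = ε * T := mul_one _
  have h0 : 0 ≤ ∫ u in (1 : ℝ)..T, |Wn lam c r l u| :=
    intervalIntegral.integral_nonneg hT fun u _ => abs_nonneg _
  rw [Real.dist_eq, sub_zero, abs_of_nonneg (div_nonneg h0 hT0.le), div_lt_iff₀ hT0]
  linarith

/-- **One window in exact mean square as a criterion** -/
theorem cn_win_tfae (E : Cn lam c δ σ G₀ g k p κ η C) (r : ℝ) {l : ℝ} (hl : 0 < l) (hl1 : l < 1) :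
    List.TFAE [
    (∀ s : ℂ, 0 < s.re → G₀ s ≠ 0) ∧ (p : ℝ) = k + r,
    ∃ B : ℝ, ∀ᶠ T : ℝ in atTop, ∫ u in (1 : ℝ)..T, (u * Wn lam c r l u) ^ 2 ≤ B * T,
    ∃ V : ℝ, HasSum (fun t : ℝ => (((mu G₀ t : ℝ) - mu G₀ (t / l)) / t) ^ 2) V ∧
      Tendsto (fun T : ℝ => (∫ u in (1 : ℝ)..T, (u * Wn lam c r l u) ^ 2) / T) atTop (𝓝 V)] := by
  tfae_have 1 → 3 := by
    rintro ⟨h1, h2⟩
    exact (cn_win_ms E h1 h2 hl).1
  tfae_have 3 → 2 := by
    rintro ⟨V, -, h⟩
    exact ⟨V + 1, bdd_of_tendsto h⟩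
  tfae_have 2 → 1 := by
    rintro ⟨B, h⟩
    exact (cn_window_one E r hl hl1).1 (small_of_bdd E.D hl1 h)
  tfae_finish

/-- no zeros near the centre, except perhaps the centre -/
theorem cn_iso (E : Cn lam c δ σ G₀ g k p κ η C) :
    ∃ r : ℝ, 0 < r ∧ ∀ t : ℝ, t ≠ 0 → |t| < r → mu G₀ t = 0 := by
  have h1 : ∀ᶠ s in 𝓝 (0 : ℂ), g s ≠ 0 := E.hg.continuousAt.eventually_ne E.hg0
  obtain ⟨r, hr, h2⟩ := Metric.eventually_nhds_iff_ball.1 (h1.and E.near)
  refine ⟨r, hr, fun t ht htr => ?_⟩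
  have hmem : (t : ℂ) * I ∈ Metric.ball (0 : ℂ) r := by
    rw [mem_ball_zero_iff, norm_mul, Complex.norm_I, mul_one, Complex.norm_real, Real.norm_eq_abs]
    exact htr
  obtain ⟨h3, h4⟩ := h2 _ hmem
  have h5 : G₀ (t * I) ≠ 0 := by
    rw [h4]
    exact mul_ne_zero (pow_ne_zero _ (mul_ne_zero (by exact_mod_cast ht) I_ne_zero)) h3
  have hη := E.hη
  have aG : AnalyticAt ℂ G₀ ((t : ℂ) * I) :=
    (DifferentiableOn.analyticOnNhd (fun z hz => (E.hG z hz).differentiableWithinAt)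
      (Pool.Agent.Q5.BP.open_re (-η))) _ (by
        show -η < ((t : ℂ) * I).re
        simp [hη])
  unfold mu
  rw [aG.analyticOrderAt_eq_zero.2 h5]
  rfl

end Dirichlet

section System

variable {X : Type} {d : ℕ} {N : X → ℕ} {α : X → Fin d → ℂ} {Ψ G₀ : ℂ → ℂ} {k κ : ℕ} {η C : ℝ}

/-- the criterion in the two languages -/
theorem ord_iff (H : Mc N α Ψ G₀ k κ η C) {g : ℂ → ℂ} {p : ℕ} {e : X × ℕ → ℕ}
    (Q : Cn (lamS N e) (cS' N α e) (Real.log 2) 1 G₀ g k p κ η C) (ρ : ℝ) :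
    ((∀ s : ℂ, 0 < s.re → Ψ s ≠ 0) ∧ ∃ m : ℤ, ρ = m ∧ meromorphicOrderAt Ψ 0 = m) ↔
      ((∀ s : ℂ, 0 < s.re → G₀ s ≠ 0) ∧ (p : ℝ) = k + ρ) := by
  have hord := (Pool.Agent.TH270.MS.mero_of Q.hg Q.hg0
    (Pool.Agent.TH270.MS.local_form H.hη H.hΨ Q.near)).2
  rw [H.zf]
  refine and_congr_right fun _ => ?_
  rw [hord]
  constructor
  · rintro ⟨m, h1, h2⟩
    have h3 : (p : ℤ) - (k : ℤ) = m := by exact_mod_cast h2
    rw [h1, ← h3]
    push_cast
    ring
  · intro h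
    refine ⟨(p : ℤ) - k, ?_, rfl⟩
    push_cast
    linarith

theorem mu_w (H : Mc N α Ψ G₀ k κ η C) {l : ℝ} (hl : 0 < l) :
    (fun t : ℝ => (((mu G₀ t : ℝ) - mu G₀ (t / l)) / t) ^ 2) =
      fun t : ℝ => (((mu Ψ t : ℝ) - mu Ψ (t / l)) / t) ^ 2 := by
  funext t
  by_cases ht : t = 0
  · rw [ht]
    simp
  · rw [mu_eq H ht, mu_eq H (div_ne_zero ht hl.ne')]

theorem cw_w (H : Mc N α Ψ G₀ k κ η C) {l : ℝ} (hl : 0 < l) (t : ℝ) : cw G₀ l t = cw Ψ l t := by
  unfold cw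
  by_cases ht : t = 0
  · rw [ht]
    simp
  · rw [mu_eq H ht, mu_eq H (div_ne_zero ht hl.ne')]

theorem wl_sq (E : Sys N α) {e : X × ℕ → ℕ} (he : Function.Injective e) (ρ l : ℝ) {T : ℝ} (hT : 1 ≤ T) :
    ∫ y in Real.exp 1..Real.exp T, (Real.log y * -WL N α ρ l y) ^ 2 / y =
      ∫ u in (1 : ℝ)..T, (u * Wn (lamS N e) (cS' N α e) ρ l u) ^ 2 := by
  rw [← cov_ii _ hT]
  refine intervalIntegral.integral_congr fun Y hY => ?_
  rw [uIcc_of_le (Real.exp_le_exp.2 hT)] at hY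
  have h0 : 0 < Y := (Real.exp_pos 1).trans_le hY.1
  rw [wl_eq E he ρ l h0, neg_neg]

theorem wl_fb (E : Sys N α) {e : X × ℕ → ℕ} (he : Function.Injective e) (ρ l t : ℝ) {T : ℝ} (hT : 1 ≤ T) :
    ∫ y in Real.exp 1..Real.exp T, ((Real.log y * -WL N α ρ l y : ℝ) : ℂ) *
      (y : ℂ) ^ (-(t * I)) / (y : ℂ) =
      ∫ u in (1 : ℝ)..T, ((u * Wn (lamS N e) (cS' N α e) ρ l u : ℝ) : ℂ) * exp (-(t * I * u)) := by
  rw [← cov_iiC _ hT]
  refine intervalIntegral.integral_congr fun Y hY => ?_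
  rw [uIcc_of_le (Real.exp_le_exp.2 hT)] at hY
  have h0 : 0 < Y := (Real.exp_pos 1).trans_le hY.1
  have h0c : (Y : ℂ) ≠ 0 := by exact_mod_cast h0.ne'
  have h1 : (Y : ℂ) ^ (-(t * I)) = exp (-(t * I * Real.log Y)) := by
    rw [cpow_def_of_ne_zero h0c, ← Complex.ofReal_log h0.le]
    congr 1
    ring
  rw [wl_eq E he ρ l h0, neg_neg, h1]

theorem tendsto_exp_iffC {β : Type*} {f : ℝ → β} {l : Filter β} :
    Tendsto f atTop l ↔ Tendsto (fun T : ℝ => f (Real.exp T)) atTop l := by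
  constructor
  · intro h
    exact h.comp Real.tendsto_exp_atTop
  · intro h
    refine (h.comp Real.tendsto_log_atTop).congr' ?_
    filter_upwards [eventually_gt_atTop 0] with Y hY
    simp only [Function.comp_apply]
    rw [Real.exp_log hY]

/-- the statement about the windows -/
def WinLaw (P : Prop) (m : ℝ → ℕ) (l : ℝ) (f : ℝ → ℝ) : Prop :=
  List.TFAE [P, BSq f, ∃ V : ℝ, HasSum (fun t : ℝ => (((m t : ℝ) - m (t / l)) / t) ^ 2) V ∧
    Tendsto (MSq f) atTop (𝓝 V)] ∧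
  (P → ∀ t : ℝ, Tendsto (FB f t) atTop (𝓝 (-((((m t : ℂ) - m (t / l)) * I) / t))))

theorem cw_form (F : ℂ → ℂ) (l t : ℝ) :
    cw F l t = -((((mu F t : ℂ) - mu F (t / l)) * I) / t) := by
  unfold cw
  by_cases ht : t = 0
  · rw [ht]
    simp
  · have ht' : (t : ℂ) ≠ 0 := by exact_mod_cast ht
    field_simp
    rw [Complex.I_sq]
    ring

/-- **prime powers** -/
theorem win_pack (H : Mc N α Ψ G₀ k κ η C) (ρ : ℝ) {l : ℝ} (hl : 0 < l) (hl1 : l < 1) {P : Prop}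
    (hP : P ↔ ((∀ s : ℂ, 0 < s.re → Ψ s ≠ 0) ∧ ∃ m : ℤ, ρ = m ∧ meromorphicOrderAt Ψ 0 = m))
    {m : ℝ → ℕ} (hm : ∀ t, mu Ψ t = m t) {f : ℝ → ℝ}
    (hf : ∀ y : ℝ, Real.exp 1 ≤ y → f y = -WL N α ρ l y) : WinLaw P m l f := by
  have hm' : m = mu Ψ := (funext hm).symm
  obtain ⟨e, g, p, he, Q⟩ := H.cn
  have t := cn_win_tfae Q ρ hl hl1
  rw [← ord_iff H Q ρ, ← hP] at t
  unfold WinLaw
  rw [bsq_congr hf]
  simp only [msq_tendsto hf]
  refine ⟨?_, fun hp t' => ?_⟩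
  · tfae_have 1 ↔ 2 := by
      refine (t.out 0 1).trans (exists_congr fun B => ?_)
      rw [eventually_exp_iff (f := fun Y => ∫ y in Real.exp 1..Y,
        (Real.log y * -WL N α ρ l y) ^ 2 / y ≤ B * Real.log Y)]
      refine eventually_congr ?_
      filter_upwards [eventually_ge_atTop 1] with T hT
      rw [wl_sq H.E he ρ l hT, Real.log_exp]
    tfae_have 1 ↔ 3 := by
      refine (t.out 0 2).trans ?_
      rw [mu_w H hl, hm']
      refine exists_congr fun V => and_congr_right fun _ => ?_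
      unfold MSq
      rw [tendsto_exp_iff (f := fun Y => (∫ y in Real.exp 1..Y,
        (Real.log y * -WL N α ρ l y) ^ 2 / y) / Real.log Y)]
      refine tendsto_congr' ?_
      filter_upwards [eventually_ge_atTop 1] with T hT
      rw [wl_sq H.E he ρ l hT, Real.log_exp]
    tfae_finish
  · have h1 := (ord_iff H Q ρ).1 (hP.1 hp)
    have h2 := (cn_win_ms Q h1.1 h1.2 hl).2 t'
    rw [cw_w H hl, cw_form, ← hm'] at h2
    have h3 : Tendsto (FB (fun y => -WL N α ρ l y) t') atTop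
        (𝓝 (-((((m t' : ℂ) - m (t' / l)) * I) / t'))) := by
      unfold FB
      rw [tendsto_exp_iffC]
      refine h2.congr' ?_
      filter_upwards [eventually_ge_atTop 1] with T hT
      rw [wl_fb H.E he ρ l t' hT, Real.log_exp]
    refine h3.congr' ?_
    filter_upwards [eventually_ge_atTop (Real.exp 1)] with Y hY
    exact (fb_congr hf t' hY).symm

/-- the windows over the primes and over the prime powers -/
theorem win_close (E : Sys N α) (ρ : ℝ) {l : ℝ} (hl : 0 < l)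
    (hS : Tendsto (fun y : ℝ => Real.log y * (Sq N α y - Sq N α (y ^ l))) atTop (𝓝 0)) :
    Tendsto (fun y : ℝ => Real.log y * -WL N α ρ l y - Real.log y * WV N α ρ l y) atTop (𝓝 0) := by
  obtain ⟨K, hK⟩ := sharp_tail E
  set D : ℝ → ℝ := fun y => Pool.Agent.Q5.MS.Pv N α y + Pl N α y + Sq N α y with hD
  have hK' : ∀ Y : ℝ, 1 ≤ Y → |D Y| ≤ |K| * Y ^ (-(1 / 12 : ℝ)) := fun Y hY =>
    (hK Y hY).trans (mul_le_mul_of_nonneg_right (le_abs_self K) (Real.rpow_nonneg (by linarith) _))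
  have lim : ∀ a : ℝ, 0 < a → Tendsto (fun x : ℝ => |K| * (Real.log x * x ^ (-a))) atTop (𝓝 0) := by
    intro a ha
    have h3 := (isLittleO_log_rpow_atTop ha).tendsto_div_nhds_zero
    have h4 := h3.const_mul |K|
    rw [mul_zero] at h4
    refine h4.congr' ?_
    filter_upwards [eventually_gt_atTop 0] with x hx
    rw [Real.rpow_neg hx.le]
    ring
  have h1 : Tendsto (fun Y : ℝ => Real.log Y * D Y) atTop (𝓝 0) := by
    refine squeeze_zero_norm' ?_ (lim (1 / 12) (by norm_num))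
    filter_upwards [eventually_ge_atTop 1] with Y hY
    have h4 := Real.log_nonneg hY
    rw [Real.norm_eq_abs, abs_mul, abs_of_nonneg h4]
    calc Real.log Y * _ ≤ Real.log Y * (|K| * Y ^ (-(1 / 12 : ℝ))) :=
          mul_le_mul_of_nonneg_left (hK' Y hY) h4
      _ = _ := by ring
  have h2 : Tendsto (fun Y : ℝ => Real.log Y * D (Y ^ l)) atTop (𝓝 0) := by
    refine squeeze_zero_norm' ?_ (lim (l / 12) (by positivity))
    filter_upwards [eventually_ge_atTop 1] with Y hY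
    have h4 := Real.log_nonneg hY
    rw [Real.norm_eq_abs, abs_mul, abs_of_nonneg h4]
    have h5 := hK' (Y ^ l) (Real.one_le_rpow hY hl.le)
    rw [← Real.rpow_mul (by linarith)] at h5
    have e : l * -(1 / 12 : ℝ) = -(l / 12) := by ring
    rw [e] at h5
    calc Real.log Y * _ ≤ Real.log Y * (|K| * Y ^ (-(l / 12))) :=
          mul_le_mul_of_nonneg_left h5 h4
      _ = _ := by ring
  have h3 := (hS.sub h1).add h2
  rw [sub_zero, add_zero] at h3
  refine h3.congr fun y => ?_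
  rw [hD]
  unfold WL WV
  ring

/-- **primes** -/
theorem win_packP (H : Mc N α Ψ G₀ k κ η C) (ρ : ℝ) {l : ℝ} (hl : 0 < l) (hl1 : l < 1) {P : Prop}
    (hP : P ↔ ((∀ s : ℂ, 0 < s.re → Ψ s ≠ 0) ∧ ∃ m : ℤ, ρ = m ∧ meromorphicOrderAt Ψ 0 = m))
    {m : ℝ → ℕ} (hm : ∀ t, mu Ψ t = m t)
    (hS : Tendsto (fun y : ℝ => Real.log y * (Sq N α y - Sq N α (y ^ l))) atTop (𝓝 0)) {f : ℝ → ℝ}
    (hf : ∀ y : ℝ, Real.exp 1 ≤ y → f y = WV N α ρ l y) : WinLaw P m l f := by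
  obtain ⟨t, r⟩ := win_pack H ρ hl hl1 hP hm (f := fun y => -WL N α ρ l y) fun y _ => rfl
  have b1 : BM fun y => Real.log y * -WL N α ρ l y := bm_log.mul (bm_wl H.E ρ hl1).neg
  have b2 : BM fun y => Real.log y * WV N α ρ l y := bm_log.mul (bm_wv H.E ρ hl1)
  have hcl := win_close H.E ρ hl hS
  unfold WinLaw
  rw [bsq_congr hf]
  simp only [msq_tendsto hf]
  refine ⟨?_, fun hp t' => ?_⟩
  · tfae_have 1 ↔ 2 := (t.out 0 1).trans (bsq_iff b1 b2 hcl)
    tfae_have 1 ↔ 3 := by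
      refine (t.out 0 2).trans (exists_congr fun V => and_congr_right fun _ => ?_)
      exact sqm_iff b1 b2 hcl
    tfae_finish
  · have h3 := cmean_of b1 b2 hcl t' (r hp t')
    refine h3.congr' ?_
    filter_upwards [eventually_ge_atTop (Real.exp 1)] with Y hY
    exact (fb_congr hf t' hY).symm

/-- no zeros near the centre -/
theorem mc_iso (H : Mc N α Ψ G₀ k κ η C) : ∃ r : ℝ, 0 < r ∧ ∀ t : ℝ, t ≠ 0 → |t| < r → mu Ψ t = 0 := by
  obtain ⟨e, g, p, he, Q⟩ := H.cn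
  obtain ⟨r, hr, h⟩ := cn_iso Q
  exact ⟨r, hr, fun t ht htr => by rw [← mu_eq H ht]; exact h t ht htr⟩

/-- the coefficients of one window determine the zeros -/
theorem telescope {m : ℝ → ℕ} {r l : ℝ} (hl : 0 < l) (hl1 : l < 1) (hr : 0 < r)
    (h : ∀ t : ℝ, t ≠ 0 → |t| < r → m t = 0) {t : ℝ} (ht : t ≠ 0) :
    ∀ᶠ n : ℕ in atTop, (m t : ℝ) = ∑ j ∈ Finset.range n, ((m (t * l ^ j) : ℝ) - m (t * l ^ (j + 1))) := by
  have h1 : Tendsto (fun n : ℕ => |t| * l ^ n) atTop (𝓝 0) := by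
    have := (tendsto_pow_atTop_nhds_zero_of_lt_one hl.le hl1).const_mul |t|
    rwa [mul_zero] at this
  filter_upwards [h1.eventually (gt_mem_nhds hr)] with n hn
  have h2 : m (t * l ^ n) = 0 := by
    refine h _ (mul_ne_zero ht (pow_ne_zero _ hl.ne')) ?_
    rw [abs_mul, abs_of_pos (pow_pos hl n)]
    exact hn
  rw [Finset.sum_range_sub' (fun j => (m (t * l ^ j) : ℝ)), h2]
  simp

/-- the constant of the windows vanishes only if there are no zeros -/
theorem win_pos {m : ℝ → ℕ} {r l V : ℝ} (hl : 0 < l) (hl1 : l < 1) (hr : 0 < r)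
    (h : ∀ t : ℝ, t ≠ 0 → |t| < r → m t = 0)
    (hV : HasSum (fun t : ℝ => (((m t : ℝ) - m (t / l)) / t) ^ 2) V) :
    0 ≤ V ∧ (V = 0 ↔ ∀ t : ℝ, t ≠ 0 → m t = 0) := by
  have h0 : ∀ t : ℝ, 0 ≤ (((m t : ℝ) - m (t / l)) / t) ^ 2 := fun t => sq_nonneg _
  refine ⟨hV.nonneg h0, fun hV0 t ht => ?_, fun hm => ?_⟩
  · rw [hV0] at hV
    have h1 := (hasSum_zero_iff_of_nonneg h0).1 hV
    have h2 : ∀ s : ℝ, s ≠ 0 → (m s : ℝ) = m (s / l) := by
      intro s hs
      have h3 := congrFun h1 s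
      simp only [Pi.zero_apply, pow_eq_zero_iff two_ne_zero, div_eq_zero_iff] at h3
      rcases h3 with h3 | h3
      · linarith
      · exact absurd h3 hs
    obtain ⟨n, hn⟩ := (telescope hl hl1 hr h ht).exists
    have h4 : ∑ j ∈ Finset.range n, ((m (t * l ^ j) : ℝ) - m (t * l ^ (j + 1))) = 0 := by
      refine Finset.sum_eq_zero fun j _ => ?_
      have h5 := h2 (t * l ^ (j + 1)) (mul_ne_zero ht (pow_ne_zero _ hl.ne'))
      have h6 : t * l ^ (j + 1) / l = t * l ^ j := by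
        rw [pow_succ]
        field_simp
      rw [h6] at h5
      rw [h5, sub_self]
    rw [h4] at hn
    exact_mod_cast hn
  · have h1 : (fun t : ℝ => (((m t : ℝ) - m (t / l)) / t) ^ 2) = fun _ => 0 := by
      funext t
      by_cases ht : t = 0
      · rw [ht]
        simp
      · rw [hm t ht, hm (t / l) (div_ne_zero ht hl.ne')]
        simp
    rw [h1] at hV
    exact hV.unique hasSum_zero

end System

end Pool.Agent.Q5.AP
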